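import Pool.Agent.helper21.KBR3.Defs

/-!
Basic facts on extended charts.
-/

noncomputable section

namespace KBR

open Set MeasureTheory Filter Topology
open scoped ContDiff RealInnerProductSpace

variable {n m : ℕ}

lemma bM_sub_M {x : E n} (hx : x ∈ bM n) : x ∈ M n := Metric.sphere_subset_closedBall hx

namespace ExtChart

variable {Φ : E n → Cn m} {R : Cn m → E n} {δ : ℝ}

lemma mem_of_M (h : ExtChart Φ R δ) {x : E n} (hx : x ∈ M n) : x ∈ Metric.ball (0 : E n) (1 + δ) := by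
  have h1 := h.pos
  simp only [M, mem_closedBall_zero_iff] at hx
  rw [mem_ball_zero_iff]
  linarith

lemma right (h : ExtChart Φ R δ) {z : Cn m} (hz : z ∈ Φ '' Metric.ball (0 : E n) (1 + δ)) :
    Φ (R z) = z := by
  obtain ⟨x, hx, rfl⟩ := hz
  rw [h.left x hx]

lemma R_mem (h : ExtChart Φ R δ) {z : Cn m} (hz : z ∈ Φ '' Metric.ball (0 : E n) (1 + δ)) :
    R z ∈ Metric.ball (0 : E n) (1 + δ) := by
  obtain ⟨x, hx, rfl⟩ := hz
  rw [h.left x hx]; exact hx

lemma dΦ (h : ExtChart Φ R δ) (x : E n) : HasFDerivAt Φ (fderiv ℝ Φ x) x :=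
  ((h.smooth.differentiable (by simp)) x).hasFDerivAt

lemma dR (h : ExtChart Φ R δ) (z : Cn m) : HasFDerivAt R (fderiv ℝ R z) z :=
  ((h.smoothR.differentiable (by simp)) z).hasFDerivAt

/-- `dR ∘ dΦ = id` -/
lemma left_deriv (h : ExtChart Φ R δ) {x : E n} (hx : x ∈ Metric.ball (0 : E n) (1 + δ))
    (v : E n) : fderiv ℝ R (Φ x) (fderiv ℝ Φ x v) = v := by
  have h1 : HasFDerivAt (fun y => R (Φ y)) ((fderiv ℝ R (Φ x)).comp (fderiv ℝ Φ x)) x :=
    (h.dR (Φ x)).comp x (h.dΦ x)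
  have h2 : HasFDerivAt (fun y => R (Φ y)) (ContinuousLinearMap.id ℝ (E n)) x := by
    refine (hasFDerivAt_id x).congr_of_eventuallyEq ?_
    filter_upwards [Metric.isOpen_ball.mem_nhds hx] with y hy
    exact h.left y hy
  have h3 := h1.unique h2
  have h4 := congrArg (fun A : E n →L[ℝ] E n => A v) h3
  simpa using h4

/-- `dΦ ∘ dR = id` -/
lemma right_deriv (h : ExtChart Φ R δ) {z : Cn m}
    (hz : z ∈ Φ '' Metric.ball (0 : E n) (1 + δ)) (v : Cn m) :
    fderiv ℝ Φ (R z) (fderiv ℝ R z v) = v := by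
  have h1 : HasFDerivAt (fun y => Φ (R y)) ((fderiv ℝ Φ (R z)).comp (fderiv ℝ R z)) z :=
    (h.dΦ (R z)).comp z (h.dR z)
  have h2 : HasFDerivAt (fun y => Φ (R y)) (ContinuousLinearMap.id ℝ (Cn m)) z := by
    refine (hasFDerivAt_id z).congr_of_eventuallyEq ?_
    filter_upwards [h.isOpen.mem_nhds hz] with y hy
    exact h.right hy
  have h3 := h1.unique h2
  have h4 := congrArg (fun A : Cn m →L[ℝ] Cn m => A v) h3
  simpa using h4

/-- `dΦ ∘ dR = id` at `Φ x` -/
lemma right_deriv' (h : ExtChart Φ R δ) {x : E n} (hx : x ∈ Metric.ball (0 : E n) (1 + δ))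
    (v : Cn m) : fderiv ℝ Φ x (fderiv ℝ R (Φ x) v) = v := by
  have h1 := h.right_deriv (z := Φ x) ⟨x, hx, rfl⟩ v
  rwa [h.left x hx] at h1

lemma isOpen_image (h : ExtChart Φ R δ) {s : Set (E n)} (hs : IsOpen s)
    (hsub : s ⊆ Metric.ball (0 : E n) (1 + δ)) : IsOpen (Φ '' s) := by
  have h1 : Φ '' s = (Φ '' Metric.ball (0 : E n) (1 + δ)) ∩ R ⁻¹' s := by
    ext z
    constructor
    · rintro ⟨x, hx, rfl⟩
      exact ⟨⟨x, hsub hx, rfl⟩, by rw [mem_preimage, h.left x (hsub hx)]; exact hx⟩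
    · rintro ⟨hz, hz'⟩
      exact ⟨R z, hz', h.right hz⟩
  rw [h1]
  exact h.isOpen.inter (hs.preimage h.smoothR.continuous)

/-- a map which is holomorphic at `x` in the coordinates `Φ` is complex differentiable after
composition with `R` -/
lemma differentiableAt_of_holAt {W : Type*} [NormedAddCommGroup W] [NormedSpace ℂ W]
    (h : ExtChart Φ R δ) {U : E n → W} {x : E n} (hx : x ∈ Metric.ball (0 : E n) (1 + δ))
    (hU : DifferentiableAt ℝ U x) (hol : HolAt Φ U x) :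
    DifferentiableAt ℂ (fun z => U (R z)) (Φ x) := by
  obtain ⟨A, hA⟩ := hol
  have h1 : HasFDerivAt U (fderiv ℝ U x) (R (Φ x)) := by
    rw [h.left x hx]; exact hU.hasFDerivAt
  have h2 : HasFDerivAt (fun z => U (R z)) ((fderiv ℝ U x).comp (fderiv ℝ R (Φ x))) (Φ x) :=
    h1.comp (Φ x) (h.dR (Φ x))
  have h3 : (fderiv ℝ U x).comp (fderiv ℝ R (Φ x)) = A.restrictScalars ℝ := by
    ext1 v
    simp only [ContinuousLinearMap.comp_apply, ContinuousLinearMap.coe_restrictScalars']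
    rw [hA, h.right_deriv' hx]
  rw [h3] at h2
  exact (hasFDerivAt_of_restrictScalars ℝ h2 rfl).differentiableAt

end ExtChart

end KBR
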