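import Pool.Agent.helper21.KBR.Final

/-!
# Boundary rigidity of Kähler metrics on domains with global holomorphic coordinates: definitions
-/

noncomputable section

namespace KBR

open Set MeasureTheory
open scoped ContDiff RealInnerProductSpace

variable {n m : ℕ}

/-- `ℂᵐ` -/
abbrev Cn (m : ℕ) : Type := Fin m → ℂ

/-- the linear map `w ↦ Γ_x(u, w)` (Christoffel symbols of the Levi-Civita connection of `G`):
`⟪G x Γ(u, w), z⟫ = ½ (⟪(D_u G) w, z⟫ + ⟪(D_w G) u, z⟫ - ⟪(D_z G) u, w⟫)`. -/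
def chr (G : E n → E n →L[ℝ] E n) (x u : E n) : E n →L[ℝ] E n :=
  (G x).inverse.comp ((1 / 2 : ℝ) • (fderiv ℝ G x u + (fderiv ℝ G x).flip u -
    ContinuousLinearMap.adjoint ((fderiv ℝ G x).flip u)))

/-- curvature operator `R(u, v) = (D_u Γ)(v, ·) - (D_v Γ)(u, ·) + Γ(u, Γ(v, ·)) - Γ(v, Γ(u, ·))` -/
def curv (G : E n → E n →L[ℝ] E n) (x u v : E n) : E n →L[ℝ] E n :=
  fderiv ℝ (fun y => chr G y v) x u - fderiv ℝ (fun y => chr G y u) x v +
    (chr G x u).comp (chr G x v) - (chr G x v).comp (chr G x u)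

/-- `√⟪G_x⁻¹ x, x⟫`, the dual norm of the outward conormal `x` at `x ∈ ∂M` -/
def kap (G : E n → E n →L[ℝ] E n) (x : E n) : ℝ := Real.sqrt ⟪(G x).inverse x, x⟫

/-- outward unit normal of `G` at `x ∈ ∂M` -/
def nu (G : E n → E n →L[ℝ] E n) (x : E n) : E n := (kap G x)⁻¹ • (G x).inverse x

/-- the linear map `F_x v = v + (⟪x, v⟫ / κ₁) (ν₂ - ν₁)`: identity on `x^⊥ = T_x ∂M`,
`ν₁ ↦ ν₂`. -/
def Fb (G₁ G₂ : E n → E n →L[ℝ] E n) (x : E n) : E n →L[ℝ] E n :=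
  ContinuousLinearMap.id ℝ (E n) + ((kap G₁ x)⁻¹ • innerSL ℝ x).smulRight (nu G₂ x - nu G₁ x)

/-- `J` is parallel on `M` for the Levi-Civita connection of `G` -/
def Par (G J : E n → E n →L[ℝ] E n) : Prop :=
  ∀ x ∈ M n, ∀ u v, fderiv ℝ J x u v + chr G x u (J x v) = J x (chr G x u v)

/-- `Φ : M → ℂᵐ` is a smooth embedding (global holomorphic coordinates) for the complex
structure `J`. -/
structure HolChart (J : E n → E n →L[ℝ] E n) (Φ : E n → Cn m) : Prop where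
  smooth : ContDiff ℝ ∞ Φ
  inj : InjOn Φ (M n)
  imm : ∀ x ∈ M n, ∀ v, fderiv ℝ Φ x v = 0 → v = 0
  hol : ∀ x ∈ M n, ∀ v, fderiv ℝ Φ x (J x v) = Complex.I • fderiv ℝ Φ x v

/-- an embedding of the larger ball of radius `1 + δ` onto an open set, with a (globally defined)
smooth left inverse `R` -/
structure ExtChart (Φ : E n → Cn m) (R : Cn m → E n) (δ : ℝ) : Prop where
  smooth : ContDiff ℝ ∞ Φ
  smoothR : ContDiff ℝ ∞ R
  pos : 0 < δ
  left : ∀ x ∈ Metric.ball (0 : E n) (1 + δ), R (Φ x) = x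
  isOpen : IsOpen (Φ '' Metric.ball (0 : E n) (1 + δ))

/-- `U` is holomorphic at `x` in the coordinates `Φ`: `dU_x = A ∘ dΦ_x` with `A` complex linear. -/
def HolAt {W : Type*} [NormedAddCommGroup W] [NormedSpace ℂ W] [NormedSpace ℝ W]
    (Φ : E n → Cn m) (U : E n → W) (x : E n) : Prop :=
  ∃ A : Cn m →L[ℂ] W, ∀ v, fderiv ℝ U x v = A (fderiv ℝ Φ x v)

/-- equal boundary distance functions -/
def BdEq (G₁ G₂ : E n → E n →L[ℝ] E n) : Prop :=
  ∀ a ∈ bM n, ∀ b ∈ bM n, rdist G₁ a b = rdist G₂ a b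

lemma Fb_apply (G₁ G₂ : E n → E n →L[ℝ] E n) (x v : E n) :
    Fb G₁ G₂ x v = v + ((kap G₁ x)⁻¹ * ⟪x, v⟫) • (nu G₂ x - nu G₁ x) := by
  simp [Fb]

/-- defining property of the Christoffel symbols -/
lemma chr_inner {G : E n → E n →L[ℝ] E n} (hG : IsMetric G) {x : E n} (hx : x ∈ M n)
    (u v w : E n) :
    ⟪G x (chr G x u v), w⟫ = 1 / 2 * (⟪fderiv ℝ G x u v, w⟫ + ⟪fderiv ℝ G x v u, w⟫ -
      ⟪fderiv ℝ G x w u, v⟫) := by
  have h1 : G x (chr G x u v) = (1 / 2 : ℝ) • (fderiv ℝ G x u v + (fderiv ℝ G x).flip u v -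
      ContinuousLinearMap.adjoint ((fderiv ℝ G x).flip u) v) := by
    show G x ((G x).inverse _) = _
    rw [hG.apply_inv hx]
    simp
  rw [h1]
  simp only [inner_smul_left, inner_add_left, inner_sub_left, RCLike.conj_to_real,
    ContinuousLinearMap.flip_apply, ContinuousLinearMap.adjoint_inner_left]
  rw [real_inner_comm (fderiv ℝ G x w u) v]

end KBR
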