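import Pool.Agent.helper21.KBR.Energy

/-!
# MODULE E1: the energy inequality for `C¹` maps (same proofs as in `KBR/Seg.lean`, `KBR/Energy.lean`)
-/

noncomputable section

namespace KBR

open Set MeasureTheory Filter Topology
open scoped ContDiff RealInnerProductSpace

variable {n : ℕ} {G G₂ B : E n → E n →L[ℝ] E n}

lemma pb_continuous1 (ψ : E n → E n) (hψ : ContDiff ℝ 1 ψ) (hG : Continuous G) :
    Continuous (pb ψ G) := by
  have h6 : Continuous (fderiv ℝ ψ) := hψ.continuous_fderiv (by simp)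
  have h7 : Continuous (fun x => ContinuousLinearMap.adjoint (fderiv ℝ ψ x)) :=
    adj_continuous.comp h6
  have h8 : Continuous (fun x => (G (ψ x)).comp (fderiv ℝ ψ x)) :=
    (hG.comp hψ.continuous).clm_comp h6
  exact h7.clm_comp h8

/-- a `g₁`-geodesic between boundary points is not longer than its `ψ^* g₂`-length -/
theorem geod_compare1 (hG : IsMetric G) (hE : ∀ x ∈ M n, ExpDiffeo G x)
    (ψ : E n → E n) (hψ : ContDiff ℝ 1 ψ) (hψM : MapsTo ψ (M n) (M n))
    (hψb : ∀ x ∈ bM n, ψ x = x)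
    (hd : ∀ a ∈ bM n, ∀ b ∈ bM n, rdist G a b ≤ rdist G₂ a b)
    {c v : ℝ → E n} (h : IsGeod G 1 c v) (h0 : c 0 ∈ bM n) (h1 : c 1 ∈ bM n) :
    nrm G (c 0) (v 0) ≤ ∫ t in (0 : ℝ)..1, nrm (pb ψ G₂) (c t) (v t) := by
  have hcM : ∀ t ∈ Icc (0 : ℝ) 1, c t ∈ M n := h.mem
  have h3 := geod_minimal G hG (c 0) (hcM 0 ⟨le_refl _, zero_le_one⟩)
    (hE _ (hcM 0 ⟨le_refl _, zero_le_one⟩)) c v h rfl
  have hpath : IsPath (fun t => ψ (c t)) (c 0) (c 1) := by
    refine ⟨?_, hψb _ h0, hψb _ h1, fun t ht => hψM (hcM t ht)⟩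
    exact hψ.comp_contDiffOn (h.contDiffOn hG one_pos)
  have h4 : rdist G₂ (c 0) (c 1) ≤ len G₂ (fun t => ψ (c t)) := rdist_le_len hpath
  have h5 : len G₂ (fun t => ψ (c t)) = ∫ t in (0 : ℝ)..1, nrm (pb ψ G₂) (c t) (v t) := by
    unfold len
    apply intervalIntegral.integral_congr
    intro t ht
    rw [uIcc_of_le zero_le_one] at ht
    show nrm G₂ (ψ (c t)) (derivWithin (fun t => ψ (c t)) (Icc 0 1) t) = _
    have h6 : HasDerivWithinAt (fun t => ψ (c t)) (fderiv ℝ ψ (c t) (v t)) (Icc 0 1) t := by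
      have h7 : HasFDerivAt ψ (fderiv ℝ ψ (c t)) (c t) :=
        ((hψ.differentiable (by simp)) (c t)).hasFDerivAt
      exact h7.comp_hasDerivWithinAt t (h.vel t ht)
    rw [h6.derivWithin (uniqueDiffOn_Icc one_pos t ht)]
    exact (nrm_pb ψ G₂ _ _).symm
  calc nrm G (c 0) (v 0) ≤ rdist G (c 0) (c 1) := h3
    _ ≤ rdist G₂ (c 0) (c 1) := hd _ h0 _ h1
    _ ≤ _ := by rw [← h5]; exact h4

section
variable {φ : ℝ → E n × E n → E n × E n} {z : E n × E n}

theorem orbit_integral1 (hG : IsMetric G) (hE : ∀ x ∈ M n, ExpDiffeo G x)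
    (hG₂ : Continuous G₂)
    (ψ : E n → E n) (hψ : ContDiff ℝ 1 ψ) (hψM : MapsTo ψ (M n) (M n))
    (hψb : ∀ x ∈ bM n, ψ x = x)
    (hd : ∀ a ∈ bM n, ∀ b ∈ bM n, rdist G a b ≤ rdist G₂ a b)
    (hφ : Continuous (fun q : ℝ × (E n × E n) => φ q.1 q.2))
    (h0 : ∀ z, φ 0 z = z) (hgeo : GeoProp G φ)
    (hz : z.1 ∈ M n) (hz0 : 0 < dsq G z) (hz1 : dsq G z ≤ 1) :
    0 ≤ ∫ r in orbI φ (CM n) z, Fz G (pb ψ G₂) (φ r z) := by
  obtain ⟨a, b, ha, hb, hI, hea, heb⟩ := orbI_interval hφ h0 hz (orbI_bdd hG hgeo h0 hE hz hz0 hz1)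
  rcases eq_or_lt_of_le (ha.trans hb) with hab | hab
  · rw [hI, ← hab, Icc_self]
    simp
  have hmem : ∀ r ∈ Icc a b, r ∈ orbI φ (CM n) z := fun r hr => by rw [hI]; exact hr
  set σ := Real.sqrt (dsq G z) with hσ
  have hσ0 : 0 ≤ σ := Real.sqrt_nonneg _
  have hdsq : ∀ r ∈ Icc a b, dsq G (φ r z) = dsq G z := fun r hr =>
    (hgeo z hz hz1 r (hmem r hr)).1
  have hg := orbit_geod hG hgeo hz hz1 (a := a) (b := b) hmem
  set ℓ := b - a with hℓ
  have hℓ0 : 0 < ℓ := sub_pos.mpr hab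
  have hg2 := hg.rescale (a := ℓ) (T' := 1) hℓ0.le (by simp)
  have hcmp := geod_compare1 hG hE ψ hψ hψM hψb hd hg2 (by simpa using hea)
    (by
      have : a + ℓ * 1 = b := by rw [hℓ]; ring
      rw [this]; exact heb)
  -- the right-hand side
  set f : ℝ → ℝ := fun r => nrm (pb ψ G₂) (φ r z).1 (vl G (φ r z)) with hf
  have hR : ∫ t in (0 : ℝ)..1, nrm (pb ψ G₂) (φ (a + ℓ * t) z).1 (ℓ • vl G (φ (a + ℓ * t) z)) =
      ∫ r in a..b, f r := by
    have e1 : ∀ t, nrm (pb ψ G₂) (φ (a + ℓ * t) z).1 (ℓ • vl G (φ (a + ℓ * t) z)) =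
        ℓ * f (a + ℓ * t) := by
      intro t
      rw [nrm_smul, abs_of_pos hℓ0]
    simp_rw [e1]
    rw [intervalIntegral.integral_const_mul, intervalIntegral.integral_comp_add_mul f hℓ0.ne' a]
    simp only [mul_zero, add_zero, mul_one, smul_eq_mul]
    rw [← mul_assoc, mul_inv_cancel₀ hℓ0.ne', one_mul]
    congr 1
    rw [hℓ]; ring
  have hL : nrm G (φ (a + ℓ * 0) z).1 (ℓ • vl G (φ (a + ℓ * 0) z)) = ℓ * σ := by
    have haI : a ∈ Icc a b := ⟨le_refl _, hab.le⟩
    rw [nrm_smul, abs_of_pos hℓ0, mul_zero, add_zero,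
      nrm_vl hG (hmem a haI a right_mem_uIcc), hdsq a haI]
  rw [hR, hL] at hcmp
  -- rewrite the integral
  have hfc : ContinuousOn f (Icc a b) := by
    have h1 : ContinuousOn (fun r => (φ r z).1) (Icc a b) := by
      have : Continuous (fun r : ℝ => (φ r z).1) :=
        continuous_fst.comp (hφ.comp (continuous_id.prodMk continuous_const))
      exact this.continuousOn
    have h2 : ContinuousOn (fun r => vl G (φ r z)) (Icc a b) := by
      have h3 := hg.vel_continuousOn hG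
      have h4 : ContinuousOn (fun r : ℝ => r - a) (Icc a b) := by fun_prop
      have h5 := h3.comp h4 (fun r hr => ⟨by linarith [hr.1], by linarith [hr.2]⟩)
      refine h5.congr (fun r _ => ?_)
      simp
    have hBc : Continuous (pb ψ G₂) := pb_continuous1 ψ hψ hG₂
    have h9 := RB.nrm_cont (pb ψ G₂) hBc
    have h10 : ContinuousOn (fun r => ((φ r z).1, vl G (φ r z))) (Icc a b) := h1.prodMk h2
    have h11 := h9.comp_continuousOn h10
    exact h11
  have hint : ∫ r in orbI φ (CM n) z, Fz G (pb ψ G₂) (φ r z) = σ * (∫ r in a..b, f r) -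
      σ ^ 2 * ℓ := by
    rw [hI, integral_Icc_eq_integral_Ioc, ← intervalIntegral.integral_of_le hab.le]
    have e2 : ∫ r in a..b, Fz G (pb ψ G₂) (φ r z) = ∫ r in a..b, (σ * f r - σ ^ 2) := by
      apply intervalIntegral.integral_congr
      intro r hr
      rw [uIcc_of_le hab.le] at hr
      show Fz G (pb ψ G₂) (φ r z) = σ * f r - σ ^ 2
      unfold Fz
      rw [hdsq r hr, ← hσ]
      ring
    rw [e2, intervalIntegral.integral_sub, intervalIntegral.integral_const_mul,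
      intervalIntegral.integral_const]
    · simp only [smul_eq_mul]
      ring
    · exact (hfc.intervalIntegrable_of_Icc hab.le).const_mul σ
    · exact intervalIntegrable_const
  rw [hint]
  nlinarith [mul_le_mul_of_nonneg_left hcmp hσ0]

end

/-- Step 2: the transported inequality. -/
theorem int_Fz_nonneg1 {G₂ : E n → E n →L[ℝ] E n} (hG : IsMetric G)
    (hE : ∀ x ∈ M n, ExpDiffeo G x) (hG₂ : Continuous G₂)
    (ψ : E n → E n) (hψ : ContDiff ℝ 1 ψ) (hψM : MapsTo ψ (M n) (M n))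
    (hψb : ∀ x ∈ bM n, ψ x = x)
    (hd : ∀ a ∈ bM n, ∀ b ∈ bM n, rdist G a b ≤ rdist G₂ a b) :
    0 ≤ ∫ z in Ao G, Fz G (pb ψ G₂) z := by
  classical
  obtain ⟨φ, hφ, h0, hadd, hmp, hgeo'⟩ := geodesic_flow G hG
  have hgeo : GeoProp G φ := hgeo'
  have hBc := pb_continuous1 ψ hψ hG₂
  set F₀ := Fz G (pb ψ G₂) with hF₀
  have hF₀c : ContinuousOn F₀ (CM n) := Fz_contOn hG hBc
  have hAC : Ao G ⊆ CM n := fun z hz => hz.1
  have hinv : ∀ z ∈ Ao G, ∀ s ∈ orbI φ (CM n) z, φ s z ∈ Ao G := by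
    intro z hz s hs
    have h1 := (hgeo z hz.1 hz.2.2 s hs).1
    refine ⟨hs s right_mem_uIcc, ?_, ?_⟩
    · rw [h1]; exact hz.2.1
    · rw [h1]; exact hz.2.2
  have hmeas : Measurable ((Ao G).piecewise F₀ 0) :=
    (hF₀c.mono hAC).measurable_piecewise continuousOn_const (Ao_meas hG)
  obtain ⟨K, hK⟩ := (Ab_compact hG).exists_bound_of_continuousOn (hF₀c.mono (fun z hz => hz.1))
  have hpw : ∀ z ∈ Ao G, (Ao G).piecewise F₀ 0 z = F₀ z := fun z hz => by
    simp [Set.piecewise, hz]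
  have key := transport (volume : Measure (E n × E n)) φ hφ h0 hadd hmp (CM n) (Ao G)
    isClosed_CM hAC (Ao_meas hG) (Ao_finite hG) hinv ((Ao G).piecewise F₀ 0) hmeas
    ⟨K, fun z hz => by rw [hpw z hz]; exact hK z (Ao_sub hz)⟩
    (fun z hz => orbI_bdd hG hgeo h0 hE hz.1 hz.2.1 hz.2.2) ?_ ?_
  · rw [setIntegral_congr_fun (Ao_meas hG) hpw] at key
    exact key
  · -- positivity of the time interval for interior points
    have hsph : ∀ᵐ z : E n × E n, z.1 ∉ bM n := by
      have h1 : volume {z : E n × E n | z.1 ∈ bM n} = 0 := by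
        have h2 : {z : E n × E n | z.1 ∈ bM n} = (bM n) ×ˢ univ := by
          ext z; simp
        rw [h2, Measure.volume_eq_prod, Measure.prod_prod]
        rw [show volume (bM n) = 0 from Measure.addHaar_sphere_of_ne_zero _ _ one_ne_zero, zero_mul]
      rw [ae_iff]
      simpa using h1
    filter_upwards [ae_restrict_of_ae hsph, ae_restrict_mem (Ao_meas hG)] with z hz hzA
    have hball : z.1 ∈ Metric.ball (0 : E n) 1 := by
      have h1 := hzA.1
      rw [M, Metric.mem_closedBall] at h1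
      rw [bM, Metric.mem_sphere] at hz
      exact Metric.mem_ball.mpr (lt_of_le_of_ne h1 hz)
    have hc : Continuous (fun r : ℝ => (φ r z).1) :=
      continuous_fst.comp (hφ.comp (continuous_id.prodMk continuous_const))
    have hn := hc.continuousAt.preimage_mem_nhds (x := (0 : ℝ)) (t := Metric.ball (0 : E n) 1)
      (by rw [h0]; exact Metric.isOpen_ball.mem_nhds hball)
    obtain ⟨ε, hε, hεs⟩ := Metric.mem_nhds_iff.mp hn
    have hsub : Ioo (-ε) ε ⊆ orbI φ (CM n) z := by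
      intro s hs r hr
      have hr' : r ∈ Metric.ball (0 : ℝ) ε := by
        rw [Metric.mem_ball, Real.dist_eq, sub_zero, abs_lt]
        rw [mem_uIcc] at hr
        rcases hr with hr | hr
        · exact ⟨by linarith [hr.1], by linarith [hr.2, hs.2]⟩
        · exact ⟨by linarith [hr.1, hs.1], by linarith [hr.2]⟩
      exact ball_subset_M (hεs hr')
    refine lt_of_lt_of_le ?_ (measure_mono hsub)
    rw [Real.volume_Ioo]
    simpa using by linarith
  · intro z hz
    have h1 := orbit_integral1 hG hE hG₂ ψ hψ hψM hψb hd hφ h0 hgeo hz.1 hz.2.1 hz.2.2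
    have hIm : MeasurableSet (orbI φ (CM n) z) := by
      have := (orbI_closed φ hφ (CM n) isClosed_CM).preimage
        (f := fun s : ℝ => (s, z)) (by fun_prop)
      exact this.measurableSet
    rw [setIntegral_congr_fun hIm (g := fun r => F₀ (φ r z))
      (fun r hr => hpw _ (hinv z hz r hr))]
    exact h1

/-- Energy inequality and its equality case. -/
theorem energy1 {G₂ : E n → E n →L[ℝ] E n} (hG : IsMetric G)
    (hE : ∀ x ∈ M n, ExpDiffeo G x) (hG₂ : IsMetric G₂)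
    (ψ : E n → E n) (hψ : ContDiff ℝ 1 ψ) (hψM : MapsTo ψ (M n) (M n))
    (hψb : ∀ x ∈ bM n, ψ x = x)
    (hd : ∀ a ∈ bM n, ∀ b ∈ bM n, rdist G a b ≤ rdist G₂ a b) :
    (0 ≤ ∫ x in M n, Real.sqrt (G x).det * LinearMap.trace ℝ (E n)
      (((G x).inverse.comp (pb ψ G₂ x - G x) : E n →L[ℝ] E n) : E n →ₗ[ℝ] E n)) ∧
    ((∫ x in M n, Real.sqrt (G x).det * LinearMap.trace ℝ (E n)
      (((G x).inverse.comp (pb ψ G₂ x - G x) : E n →L[ℝ] E n) : E n →ₗ[ℝ] E n)) ≤ 0 →
      ∀ x ∈ M n, ∀ v, ⟪pb ψ G₂ x v, v⟫ = ⟪G x v, v⟫) := by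
  have hBc := pb_continuous1 ψ hψ hG₂.smooth.continuous
  have hF := int_Fz_nonneg1 hG hE hG₂.smooth.continuous ψ hψ hψM hψb hd
  obtain ⟨c, hc, hquad⟩ := int_quad hG (fun x => pb ψ G₂ x - G x)
    (hBc.sub hG.smooth.continuous)
  set I := ∫ x in M n, Real.sqrt (G x).det * LinearMap.trace ℝ (E n)
      (((G x).inverse.comp (pb ψ G₂ x - G x) : E n →L[ℝ] E n) : E n →ₗ[ℝ] E n) with hI
  set B := pb ψ G₂ with hB
  have hBnn : ∀ x ∈ M n, ∀ v, 0 ≤ ⟪B x v, v⟫ := by
    intro x hx v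
    rw [hB, pb_inner]
    exact hG₂.nonneg (hψM hx) _
  have hBsq : ∀ z ∈ CM n, nrm B z.1 (vl G z) ^ 2 = ⟪B z.1 (vl G z), vl G z⟫ := fun z hz =>
    Real.sq_sqrt (hBnn _ hz _)
  have hGv : ∀ z ∈ CM n, ⟪G z.1 (vl G z), vl G z⟫ = dsq G z := by
    intro z hz
    rw [vl, hG.apply_inv hz, real_inner_comm]
    rfl
  -- `∫_{Ao}` of the quadratic form
  have hq1 : ∫ z in Ao G, ⟪(B z.1 - G z.1) (vl G z), vl G z⟫ = c * I := by
    rw [← hquad]
    symm
    apply setIntegral_eq_of_subset_of_forall_sdiff_eq_zero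
      (Ab_compact hG).isClosed.measurableSet Ao_sub
    rintro z ⟨hz1, hz2⟩
    have h1 : dsq G z ≤ 0 := by
      by_contra h
      push Not at h
      exact hz2 ⟨hz1.1, h, hz1.2⟩
    have h2 : z.2 = 0 := by
      by_contra h
      exact absurd h1 (not_le.mpr (hG.inv_pos hz1.1 _ h))
    have h3 : vl G z = 0 := by rw [vl, h2, map_zero]
    rw [h3]
    simp
  have hAoCM : Ao G ⊆ CM n := fun z hz => hz.1
  have hcompInt : ∀ f : E n × E n → ℝ, ContinuousOn f (CM n) → IntegrableOn f (Ao G) := by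
    intro f hf
    exact ((hf.mono (fun z hz => hz.1)).integrableOn_compact (Ab_compact hG)).mono_set Ao_sub
  have hFc : ContinuousOn (Fz G B) (CM n) := Fz_contOn hG hBc
  have hQc : ContinuousOn (fun z : E n × E n => ⟪(B z.1 - G z.1) (vl G z), vl G z⟫) (CM n) := by
    have h2 : ContinuousOn (fun z : E n × E n => B z.1 - G z.1) (CM n) :=
      ((hBc.sub hG.smooth.continuous).comp continuous_fst).continuousOn
    exact (h2.clm_apply (vl_contOn hG)).inner (vl_contOn hG)
  set R : E n × E n → ℝ := fun z => (nrm B z.1 (vl G z) - Real.sqrt (dsq G z)) ^ 2 with hR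
  have hRc : ContinuousOn R (CM n) :=
    ((nrmB_contOn hG hBc).sub (dsq_contOn hG).sqrt).pow 2
  have hid : ∀ z ∈ Ao G, R z = ⟪(B z.1 - G z.1) (vl G z), vl G z⟫ - 2 * Fz G B z := by
    intro z hz
    have h1 := hBsq z hz.1
    have h2 := hGv z hz.1
    have h3 : Real.sqrt (dsq G z) ^ 2 = dsq G z := Real.sq_sqrt hz.2.1.le
    simp only [hR, Fz, _root_.sub_apply, inner_sub_left]
    rw [h2, ← h1]
    nlinarith [h3]
  have hRint : ∫ z in Ao G, R z = c * I - 2 * ∫ z in Ao G, Fz G B z := by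
    rw [setIntegral_congr_fun (Ao_meas hG) hid, integral_sub (hcompInt _ hQc)
      ((hcompInt _ hFc).const_mul 2), hq1, integral_const_mul]
  have hRnn : 0 ≤ ∫ z in Ao G, R z := integral_nonneg (fun z => sq_nonneg _)
  refine ⟨?_, fun hI0 => ?_⟩
  · have h1 : 0 ≤ c * I := by linarith
    exact nonneg_of_mul_nonneg_right h1 hc
  · have hR0 : ∫ z in Ao G, R z = 0 := by
      apply le_antisymm _ hRnn
      have h1 : c * I ≤ 0 := mul_nonpos_of_nonneg_of_nonpos hc.le hI0
      linarith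
    have hae : R =ᵐ[volume.restrict (Ao G)] 0 :=
      (integral_eq_zero_iff_of_nonneg (fun z => sq_nonneg _) (hcompInt _ hRc)).mp hR0
    -- open subset
    set U : Set (E n × E n) := {z | z.1 ∈ Metric.ball (0 : E n) 1 ∧ 0 < dsq G z ∧ dsq G z < 1}
      with hU
    have hUo : IsOpen U := by
      have hW : IsOpen {z : E n × E n | z.1 ∈ Metric.ball (0 : E n) 1} :=
        Metric.isOpen_ball.preimage continuous_fst
      have h1 : U = {z : E n × E n | z.1 ∈ Metric.ball (0 : E n) 1} ∩ dsq G ⁻¹' (Ioo 0 1) := rfl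
      rw [h1]
      exact ((dsq_contOn hG).mono (fun z hz => ball_subset_M hz)).isOpen_inter_preimage hW
        isOpen_Ioo
    have hUA : U ⊆ Ao G := fun z hz => ⟨ball_subset_M hz.1, hz.2.1, hz.2.2.le⟩
    have haeU : R =ᵐ[volume.restrict U] 0 := ae_restrict_of_ae_restrict_of_subset hUA hae
    have hEq : EqOn R 0 U := Measure.eqOn_open_of_ae_eq haeU hUo
      (hRc.mono (fun z hz => ball_subset_M hz.1)) continuousOn_const
    -- interior points
    have hball : ∀ x ∈ Metric.ball (0 : E n) 1, ∀ v, ⟪B x v, v⟫ = ⟪G x v, v⟫ := by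
      intro x hx v
      by_cases hv : v = 0
      · simp [hv]
      have hxM := ball_subset_M hx
      have hvv := hG.pos x hxM v hv
      set t : ℝ := 1 / Real.sqrt (2 * ⟪G x v, v⟫) with ht
      have ht0 : 0 < t := by positivity
      have ht2 : t ^ 2 * ⟪G x v, v⟫ = 1 / 2 := by
        rw [ht, div_pow, Real.sq_sqrt (by positivity)]
        field_simp
      set z : E n × E n := (x, G x (t • v)) with hz
      have hvl : vl G z = t • v := hG.inv_apply hxM _
      have hdz : dsq G z = 1 / 2 := by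
        rw [← hGv z hxM, hvl]
        simp only [hz, map_smul, inner_smul_left, inner_smul_right, conj_trivial]
        rw [← ht2]; ring
      have hzU : z ∈ U := ⟨hx, by rw [hdz]; norm_num, by rw [hdz]; norm_num⟩
      have h1 := hEq hzU
      have h2 : nrm B z.1 (vl G z) = Real.sqrt (dsq G z) := by
        have : (nrm B z.1 (vl G z) - Real.sqrt (dsq G z)) ^ 2 = 0 := h1
        exact sub_eq_zero.mp (pow_eq_zero_iff (two_ne_zero) |>.mp this)
      have h3 : ⟪B z.1 (vl G z), vl G z⟫ = ⟪G z.1 (vl G z), vl G z⟫ := by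
        rw [← hBsq z hxM, h2, Real.sq_sqrt (by rw [hdz]; norm_num), hGv z hxM]
      rw [hvl] at h3
      simp only [hz, map_smul, inner_smul_left, inner_smul_right, conj_trivial] at h3
      have ht' : t * t ≠ 0 := by positivity
      have h4 : (t * t) * ⟪B x v, v⟫ = (t * t) * ⟪G x v, v⟫ := by
        rw [mul_assoc, mul_assoc]; exact h3
      exact mul_left_cancel₀ ht' h4
    intro x hx v
    have hcl : x ∈ closure (Metric.ball (0 : E n) 1) := by
      rw [closure_ball (0 : E n) one_ne_zero]; exact hx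
    have hcB : Continuous (fun y => ⟪B y v, v⟫) := by fun_prop
    have hcG : Continuous (fun y => ⟪G y v, v⟫) := by
      have := hG.smooth.continuous
      fun_prop
    have hclosed : IsClosed {y | ⟪B y v, v⟫ = ⟪G y v, v⟫} := isClosed_eq hcB hcG
    exact closure_minimal (fun y hy => hball y hy v) hclosed hcl

end KBR
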