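import Pool.Agent.helper15.KBR3.EndVel
import Pool.Agent.helper18.KBR3.FbLin
import Pool.Agent.helper5.KBR3.ExpJet
import Pool.Agent.helper73.KBR3.A5
import Pool.Agent.helper73.KBR3.A6
import Pool.Agent.helper22.KBR3.KahlerPar
import Pool.Agent.helper16.KBR3.CurvComm
import Pool.Agent.helper26.KBR3.HolSmooth
import Pool.Agent.helper45.KBR3.C8
import Pool.Agent.helper77.KBR3.Trace1
import Pool.Agent.helper21.KBR3.Energy1
import Pool.Agent.helper21.KBR3.PullClosed1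
import Pool.Agent.helper18.KBR3.Scat
import Pool.Agent.helper16.KBR3.ExtChart
import Pool.Agent.helper60.KBR3.Hartogs
import Pool.Agent.helper60.KBR3.Glue

/-!
# Second order boundary determination; all modules of the theorem on Kähler domains
-/

noncomputable section

namespace KBR

open Set MeasureTheory Filter Topology
open scoped ContDiff RealInnerProductSpace

variable {n m : ℕ}

/-- second order boundary determination -/
theorem jet_eq {G₁ G₂ : E n → E n →L[ℝ] E n} (h₁ : IsMetric G₁) (h₂ : IsMetric G₂)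
    (e₁ : ∀ x ∈ M n, ExpDiffeo G₁ x) (e₂ : ∀ x ∈ M n, ExpDiffeo G₂ x) (hd : BdEq G₁ G₂)
    {a : E n} (ha : a ∈ bM n) {w : E n} (hw : ‖w‖ = 1) (haw : ⟪a, w⟫ = 0) :
    Fb G₁ G₂ a (chr G₁ a w w - a) = chr G₂ a w w - a := by
  have haM := bM_sub_M ha
  obtain ⟨E₁, L₁, x1, x2, x3, x4, x5⟩ := e₁ a haM
  obtain ⟨E₂, L₂, y1, y2, y3, y4, y5⟩ := e₂ a haM
  have t1 := exp_jet h₁ ha x1 x2 x3 x4 x5 hw haw
  have t2 := exp_jet h₂ ha y1 y2 y3 y4 y5 hw haw
  have han : ‖a‖ = 1 := by simpa [bM] using ha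
  have hFw : Fb G₁ G₂ a w = w := by rw [Fb_apply, haw]; simp
  have key : ∀ s : ℝ, Fb G₁ G₂ a (L₁ (BQ.gc a w s)) = L₂ (BQ.gc a w s) := by
    intro s
    have hb : BQ.gc a w s ∈ bM n := by simp [bM, BQ.gc_norm han hw haw s]
    obtain ⟨⟨c₁, v₁, g₁, c10, v10⟩, hE1⟩ := x4 _ (bM_sub_M hb)
    obtain ⟨⟨c₂, v₂, g₂, c20, v20⟩, hE2⟩ := y4 _ (bM_sub_M hb)
    have := scat h₁ h₂ e₁ e₂ hd ha hb g₁ g₂ c10 c20 (by rw [x1 c₁ v₁ g₁ c10, v10, hE1])
      (by rw [y1 c₂ v₂ g₂ c20, v20, hE2])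
    rw [← v10, ← v20]; exact this
  have t3 := ((Fb G₁ G₂ a).continuous.tendsto _).comp t1
  refine tendsto_nhds_unique t3 (t2.congr fun s => ?_)
  simp only [Function.comp_apply, map_smul, map_sub, key s, hFw]

end KBR
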