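import Pool.Agent.helper21.KBR3.Main

/-!
Generic boundary curvature; final form of the theorem.
-/

noncomputable section

namespace KBR

open Set MeasureTheory Filter Topology
open scoped ContDiff RealInnerProductSpace

variable {n m : ℕ}

lemma IsAlmostKahler.negJ {G J : E n → E n →L[ℝ] E n} (h : IsAlmostKahler G J) :
    IsAlmostKahler G (fun x => -J x) := by
  refine ⟨h.metric, h.smoothJ.neg, fun x hx v => ?_, fun x hx u v => ?_, fun x hx u v w => ?_⟩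
  · simp [h.sq x hx]
  · simp [h.inv x hx]
  · have h1 : (fun y => (G y).comp (-J y)) = fun y => -((G y).comp (J y)) := by
      funext y; ext v; simp
    have h2 : fderiv ℝ (fun y => (G y).comp (-J y)) x =
        -fderiv ℝ (fun y => (G y).comp (J y)) x := by
      rw [h1]; exact fderiv_neg
    rw [h2]
    have h3 := h.closed x hx u v w
    simp only [_root_.neg_apply, inner_neg_left]
    linarith

/-- complex conjugation on `ℂᵐ` -/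
def conjL (m : ℕ) : Cn m →L[ℝ] Cn m :=
  ContinuousLinearMap.pi fun i => (Complex.conjCLE : ℂ →L[ℝ] ℂ).comp (ContinuousLinearMap.proj i)

lemma conjL_apply (z : Cn m) (i : Fin m) : conjL m z i = (starRingEnd ℂ) (z i) := rfl

lemma conjL_conjL (z : Cn m) : conjL m (conjL m z) = z := by
  funext i; simp [conjL_apply]

lemma conjL_I (z : Cn m) : conjL m (Complex.I • z) = -(Complex.I • conjL m z) := by
  funext i; simp [conjL_apply]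

lemma HolChart.conj {J : E n → E n →L[ℝ] E n} {Φ : E n → Cn m} (h : HolChart J Φ) :
    HolChart (fun x => -J x) (fun x => conjL m (Φ x)) := by
  have hd : ∀ x, fderiv ℝ (fun x => conjL m (Φ x)) x = (conjL m).comp (fderiv ℝ Φ x) := by
    intro x
    exact ((conjL m).hasFDerivAt.comp x ((h.smooth.differentiable (by simp)) x).hasFDerivAt).fderiv
  have hinj : Function.Injective (conjL m) := fun a b hab => by
    rw [← conjL_conjL a, hab, conjL_conjL]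
  refine ⟨(conjL m).contDiff.comp h.smooth, fun x hx y hy hxy => h.inj hx hy (hinj hxy),
    fun x hx v hv => ?_, fun x hx v => ?_⟩
  · rw [hd] at hv
    apply h.imm x hx v
    apply hinj
    rw [map_zero]; exact hv
  · rw [hd]
    simp only [ContinuousLinearMap.comp_apply, _root_.neg_apply, map_neg, h.hol x hx, conjL_I,
      neg_neg]

/-- `J₁(p)` is, up to sign, the only `g₁`-orthogonal complex structure on `T_pM` which commutes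
with the curvature operators `R(u, v)`, `u, v ∈ T_p ∂M`. -/
def Generic (G J : E n → E n →L[ℝ] E n) (p : E n) : Prop :=
  ∀ K : E n →L[ℝ] E n, (∀ v, K (K v) = -v) → (∀ u v, ⟪G p (K u), K v⟫ = ⟪G p u, v⟫) →
    (∀ u v, ⟪p, u⟫ = 0 → ⟪p, v⟫ = 0 → ∀ w, curv G p u v (K w) = K (curv G p u v w)) →
    (∀ v, K v = J p v) ∨ (∀ v, K v = -J p v)

/-- in the generic case the complex structures agree up to sign at `p` -/
theorem generic_align (hnm : n = 2 * m) {G₁ G₂ J₁ J₂ : E n → E n →L[ℝ] E n}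
    {Φ₂ : E n → Cn m} (h₁ : IsMetric G₁) (k₂ : IsAlmostKahler G₂ J₂)
    (c₂ : HolChart J₂ Φ₂)
    (e₁ : ∀ x ∈ M n, ExpDiffeo G₁ x) (e₂ : ∀ x ∈ M n, ExpDiffeo G₂ x) (hd : BdEq G₁ G₂)
    {p : E n} (hp : p ∈ bM n) (hg : Generic G₁ J₁ p) :
    (∀ v, Fb G₁ G₂ p (J₁ p v) = J₂ p (Fb G₁ G₂ p v)) ∨
    (∀ v, Fb G₁ G₂ p (J₁ p v) = -J₂ p (Fb G₁ G₂ p v)) := by
  have h₂ := k₂.metric
  have p₂ := kahler_par hnm k₂ c₂
  have ht : ∀ a ∈ bM n, ∀ u v, ⟪a, u⟫ = 0 → ⟪a, v⟫ = 0 → ⟪G₁ a u, v⟫ = ⟪G₂ a u, v⟫ :=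
    fun a ha u v hu hv => tan_eq h₁ h₂ hd ha hu hv
  have hFpar := conn_par h₁ h₂ ht (fun a ha w hw haw => jet_eq h₁ h₂ e₁ e₂ hd ha hw haw)
  set K : E n →L[ℝ] E n := (Fb G₂ G₁ p).comp ((J₂ p).comp (Fb G₁ G₂ p)) with hK
  have i1 : ∀ v, Fb G₂ G₁ p (Fb G₁ G₂ p v) = v := fun v => Fb_inv h₁ h₂ hp v
  have i2 : ∀ v, Fb G₁ G₂ p (Fb G₂ G₁ p v) = v := fun v => Fb_inv h₂ h₁ hp v
  have hpM := bM_sub_M hp
  have hFK : ∀ v, Fb G₁ G₂ p (K v) = J₂ p (Fb G₁ G₂ p v) := fun v => i2 _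
  have key := hg K (fun v => by
      show Fb G₂ G₁ p (J₂ p (Fb G₁ G₂ p (K v))) = -v
      rw [hFK, k₂.sq p hpM, map_neg, i1])
    (fun u v => by
      rw [← Fb_isom h₁ h₂ hp (ht p hp) (K u) (K v), hFK, hFK, k₂.inv p hpM,
        Fb_isom h₁ h₂ hp (ht p hp)])
    (fun u v hu hv w => curv_comm h₁ h₂ k₂.smoothJ hFpar p₂ hp hFK hu hv w)
  rcases key with h | h
  · left
    intro v
    rw [← h, hFK]
  · right
    intro v
    have h3 := h v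
    rw [← neg_eq_iff_eq_neg] at h3
    rw [← h3, map_neg, hFK]

/-- Boundary rigidity of Kähler metrics with holomorphic coordinates. -/
theorem kd_main (hm : 2 ≤ m) (hnm : n = 2 * m) {G₁ G₂ J₁ J₂ : E n → E n →L[ℝ] E n}
    {Φ₁ Φ₂ : E n → Cn m} (k₁ : IsAlmostKahler G₁ J₁) (k₂ : IsAlmostKahler G₂ J₂)
    (c₁ : HolChart J₁ Φ₁) (c₂ : HolChart J₂ Φ₂)
    (e₁ : ∀ x ∈ M n, ExpDiffeo G₁ x) (e₂ : ∀ x ∈ M n, ExpDiffeo G₂ x) (hd : BdEq G₁ G₂)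
    {p : E n} (hp : p ∈ bM n)
    (hal : (∀ v, Fb G₁ G₂ p (J₁ p v) = J₂ p (Fb G₁ G₂ p v)) ∨
      (∀ v, Fb G₁ G₂ p (J₁ p v) = -J₂ p (Fb G₁ G₂ p v)) ∨ Generic G₁ J₁ p) :
    ∃ ψ ψ' : E n → E n, ContDiff ℝ 1 ψ ∧ ContDiff ℝ 1 ψ' ∧
      ContDiffOn ℝ ∞ ψ (Metric.ball 0 1) ∧
      (∀ x ∈ M n, ψ x ∈ M n ∧ ψ' x ∈ M n ∧ ψ' (ψ x) = x ∧ ψ (ψ' x) = x) ∧
      (∀ x ∈ bM n, ψ x = x) ∧
      (∀ x ∈ M n, ∀ u v, ⟪G₂ (ψ x) (fderiv ℝ ψ x u), fderiv ℝ ψ x v⟫ = ⟪G₁ x u, v⟫) ∧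
      ((∀ x ∈ M n, ∀ v, fderiv ℝ ψ x (J₁ x v) = J₂ (ψ x) (fderiv ℝ ψ x v)) ∨
        (∀ x ∈ M n, ∀ v, fderiv ℝ ψ x (J₁ x v) = -J₂ (ψ x) (fderiv ℝ ψ x v))) := by
  have hal' : (∀ v, Fb G₁ G₂ p (J₁ p v) = J₂ p (Fb G₁ G₂ p v)) ∨
      (∀ v, Fb G₁ G₂ p (J₁ p v) = -J₂ p (Fb G₁ G₂ p v)) := by
    rcases hal with h | h | h
    · exact Or.inl h
    · exact Or.inr h
    · exact generic_align hnm k₁.metric k₂ c₂ e₁ e₂ hd hp h
  rcases hal' with h | h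
  · obtain ⟨ψ, ψ', a1, a2, a3, a4, a5, a6, a7⟩ := kd_aligned hm hnm k₁ k₂ c₁ c₂ e₁ e₂ hd hp h
    exact ⟨ψ, ψ', a1, a2, a3, a4, a5, a6, Or.inl a7⟩
  · obtain ⟨ψ, ψ', a1, a2, a3, a4, a5, a6, a7⟩ := kd_aligned hm hnm k₁ k₂.negJ c₁ c₂.conj e₁ e₂ hd
      hp (fun v => by rw [h v]; rfl)
    exact ⟨ψ, ψ', a1, a2, a3, a4, a5, a6, Or.inr a7⟩

end KBR
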