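import Pool.Agent.helper15.KBR3.EndVel

/-!
# A `C¹` isometry of simple manifolds is smooth up to the boundary
-/

noncomputable section

namespace KBR

open Set MeasureTheory Filter Topology
open scoped ContDiff RealInnerProductSpace

variable {n : ℕ}

namespace ISO

/-- derivative of the inverse map -/
lemma deriv_inv {ψ ψ' : E n → E n} (hψ : ContDiff ℝ 1 ψ) (hψ' : ContDiff ℝ 1 ψ')
    (hM : ∀ x ∈ M n, ψ x ∈ M n ∧ ψ' (ψ x) = x) {x : E n} (hx : x ∈ M n) (v : E n) :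
    fderiv ℝ ψ' (ψ x) (fderiv ℝ ψ x v) = v := by
  have h1 : HasFDerivAt (fun y => ψ' (ψ y)) ((fderiv ℝ ψ' (ψ x)).comp (fderiv ℝ ψ x)) x :=
    HasFDerivAt.comp x ((hψ'.differentiable (by simp)) (ψ x)).hasFDerivAt
      ((hψ.differentiable (by simp)) x).hasFDerivAt
  have h2 : HasFDerivWithinAt (fun y => ψ' (ψ y)) (ContinuousLinearMap.id ℝ (E n)) (M n) x :=
    (hasFDerivWithinAt_id x (M n)).congr (fun y hy => (hM y hy).2) (hM x hx).2
  have h3 := (uniqueDiffOn_M x hx).eq h1.hasFDerivWithinAt h2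
  have h4 := congrArg (fun A : E n →L[ℝ] E n => A v) h3
  simpa using h4

/-- the inverse of an isometry is an isometry -/
lemma isom_inv {G₁ G₂ : E n → E n →L[ℝ] E n} {ψ ψ' : E n → E n} (hψ : ContDiff ℝ 1 ψ)
    (hψ' : ContDiff ℝ 1 ψ')
    (hM : ∀ x ∈ M n, ψ x ∈ M n ∧ ψ' x ∈ M n ∧ ψ' (ψ x) = x ∧ ψ (ψ' x) = x)
    (hiso : ∀ x ∈ M n, ∀ u v, ⟪G₂ (ψ x) (fderiv ℝ ψ x u), fderiv ℝ ψ x v⟫ = ⟪G₁ x u, v⟫)
    {z : E n} (hz : z ∈ M n) (u v : E n) :
    ⟪G₁ (ψ' z) (fderiv ℝ ψ' z u), fderiv ℝ ψ' z v⟫ = ⟪G₂ z u, v⟫ := by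
  have h1 := hiso (ψ' z) (hM z hz).2.1 (fderiv ℝ ψ' z u) (fderiv ℝ ψ' z v)
  have h2 : ∀ w, fderiv ℝ ψ (ψ' z) (fderiv ℝ ψ' z w) = w := fun w =>
    deriv_inv hψ' hψ (fun x hx => ⟨(hM x hx).2.1, (hM x hx).2.2.2⟩) hz w
  rw [h2, h2, (hM z hz).2.2.2] at h1
  exact h1.symm

/-- length of the image of a scaled geodesic -/
lemma image_path {G₁ G₂ : E n → E n →L[ℝ] E n} (h₁ : IsMetric G₁) {ψ : E n → E n}
    (hψ : ContDiff ℝ 1 ψ) (hM : ∀ x ∈ M n, ψ x ∈ M n)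
    (hiso : ∀ x ∈ M n, ∀ u v, ⟪G₂ (ψ x) (fderiv ℝ ψ x u), fderiv ℝ ψ x v⟫ = ⟪G₁ x u, v⟫)
    {c v : ℝ → E n} (hg : IsGeod G₁ 1 c v) {t : ℝ} (ht : t ∈ Icc (0 : ℝ) 1) :
    IsPath (fun s => ψ (c (t * s))) (ψ (c 0)) (ψ (c t)) ∧
    len G₂ (fun s => ψ (c (t * s))) = t * nrm G₁ (c 0) (v 0) := by
  have hg2 := hg.rescale (a := t) (T' := 1) ht.1 (by simpa using ht.2)
  refine ⟨⟨?_, by simp, by simp, fun s hs => hM _ (hg2.mem s hs)⟩, ?_⟩
  · exact hψ.comp_contDiffOn (hg2.contDiffOn h₁ one_pos)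
  · unfold len
    have h1 : ∫ s in (0 : ℝ)..1, nrm G₂ (ψ (c (t * s)))
        (derivWithin (fun s => ψ (c (t * s))) (Icc 0 1) s) =
        ∫ s in (0 : ℝ)..1, t * nrm G₁ (c 0) (v 0) := by
      apply intervalIntegral.integral_congr
      intro s hs
      rw [uIcc_of_le zero_le_one] at hs
      have h6 : HasDerivWithinAt (fun s => ψ (c (t * s))) (fderiv ℝ ψ (c (t * s)) (t • v (t * s)))
          (Icc 0 1) s := by
        have h7 : HasFDerivAt ψ (fderiv ℝ ψ (c (t * s))) (c (t * s)) :=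
          ((hψ.differentiable (by simp)) (c (t * s))).hasFDerivAt
        exact h7.comp_hasDerivWithinAt s (hg2.vel s hs)
      show nrm G₂ (ψ (c (t * s))) (derivWithin (fun s => ψ (c (t * s))) (Icc 0 1) s) = _
      rw [h6.derivWithin (uniqueDiffOn_Icc one_pos s hs)]
      have hts : t * s ∈ Icc (0 : ℝ) 1 :=
        ⟨mul_nonneg ht.1 hs.1, mul_le_one₀ ht.2 hs.1 hs.2⟩
      have h8 : nrm G₂ (ψ (c (t * s))) (fderiv ℝ ψ (c (t * s)) (t • v (t * s))) =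
          nrm G₁ (c (t * s)) (t • v (t * s)) := by
        unfold nrm
        rw [hiso _ (hg.mem _ hts)]
      rw [h8, nrm_smul, abs_of_nonneg ht.1, geod_speed G₁ h₁ 1 c v hg (t * s) hts]
    rw [h1]
    simp

end ISO

open ISO in
/-- A `C¹` isometry between simple metrics on the ball is smooth up to the boundary. -/
theorem iso_smooth {G₁ G₂ : E n → E n →L[ℝ] E n} (h₁ : IsMetric G₁) (h₂ : IsMetric G₂)
    (e₁ : ∀ x ∈ M n, ExpDiffeo G₁ x) (e₂ : ∀ x ∈ M n, ExpDiffeo G₂ x) {ψ ψ' : E n → E n}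
    (hψ : ContDiff ℝ 1 ψ) (hψ' : ContDiff ℝ 1 ψ')
    (hM : ∀ x ∈ M n, ψ x ∈ M n ∧ ψ' x ∈ M n ∧ ψ' (ψ x) = x ∧ ψ (ψ' x) = x)
    (hiso : ∀ x ∈ M n, ∀ u v, ⟪G₂ (ψ x) (fderiv ℝ ψ x u), fderiv ℝ ψ x v⟫ = ⟪G₁ x u, v⟫)
    {a : E n} (ha : a ∈ bM n) (hab : ψ a = a) : ContDiffOn ℝ ∞ ψ (M n) := by
  have haM := bM_sub_M ha
  have ha' : ψ' a = a := by
    have := (hM a haM).2.2.1
    rwa [hab] at this
  obtain ⟨E₁, L₁, x1, x2, x3, x4, x5⟩ := e₁ a haM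
  obtain ⟨E₂, L₂, y1, y2, y3, y4, y5⟩ := e₂ a haM
  obtain ⟨Y, hYc, hY, hYg⟩ := end_vel h₂ y1 y2 y3 y4 y5
  have hL2d : ∀ z ∈ M n, HasFDerivWithinAt L₂ (fderivWithin ℝ L₂ (M n) z) (M n) z := fun z hz =>
    ((y3.differentiableOn (by simp)) z hz).hasFDerivWithinAt
  -- `L₂' Y = L₂`
  have hrad : ∀ z ∈ M n, fderivWithin ℝ L₂ (M n) z (Y z) = L₂ z := by
    intro z hz
    obtain ⟨⟨c, v, hg, hc0, hv0⟩, hEz⟩ := y4 z hz
    have hc1 : c 1 = z := by rw [y1 c v hg hc0, hv0, hEz]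
    have h1mem : (1 : ℝ) ∈ Icc (0 : ℝ) 1 := ⟨zero_le_one, le_refl _⟩
    have h2 : HasFDerivWithinAt L₂ (fderivWithin ℝ L₂ (M n) z) (M n) (c 1) := by
      rw [hc1]; exact hL2d z hz
    have h3 : HasDerivWithinAt (fun s => L₂ (c s)) (fderivWithin ℝ L₂ (M n) z (v 1)) (Icc 0 1) 1 :=
      h2.comp_hasDerivWithinAt 1 (hg.vel 1 h1mem) hg.mem
    have h4 : HasDerivWithinAt (fun s => L₂ (c s)) (L₂ z) (Icc 0 1) 1 := by
      have h5 : HasDerivWithinAt (fun s : ℝ => s • L₂ z) (L₂ z) (Icc 0 1) 1 := by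
        simpa using ((hasDerivWithinAt_id (1 : ℝ) (Icc 0 1)).smul_const (L₂ z))
      refine h5.congr (fun s hs => ?_) ?_
      · have h6 := ray_eq y1 hg hc0 hs
        rw [h6.2, hv0, y5 _ (by rw [← hv0]; exact h6.1)]
      · rw [hc1, one_smul]
    have h7 := (uniqueDiffOn_Icc one_pos 1 h1mem).eq_deriv _ h3 h4
    rw [← h7, hY c v hg hc0, hc1]
  -- norm of `Y`
  have hYn : ∀ z ∈ M n, nrm G₂ z (Y z) = nrm G₂ a (L₂ z) := by
    intro z hz
    obtain ⟨⟨c, v, hg, hc0, hv0⟩, hEz⟩ := y4 z hz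
    have hc1 : c 1 = z := by rw [y1 c v hg hc0, hv0, hEz]
    have h1 := geod_speed G₂ h₂ 1 c v hg 1 ⟨zero_le_one, le_refl _⟩
    rw [hY c v hg hc0, hc1, hc0, hv0] at h1
    exact h1
  -- the linear map
  set A : E n →L[ℝ] E n := (fderivWithin ℝ L₂ (M n) a).comp (fderiv ℝ ψ a) with hA
  have key : ∀ y ∈ M n, L₂ (ψ y) = A (L₁ y) := by
    intro y hy
    obtain ⟨⟨c, v, hg, hc0, hv0⟩, hEy⟩ := x4 y hy
    have hc1 : c 1 = y := by rw [x1 c v hg hc0, hv0, hEy]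
    set ℓ := nrm G₁ a (L₁ y) with hℓ
    have hℓ0 : 0 ≤ ℓ := nrm_nonneg _ _
    set γ : ℝ → E n := fun t => ψ (c t) with hγ
    set q : ℝ → E n := fun t => fderiv ℝ ψ (c t) (v t) with hq
    have hγd : ∀ t ∈ Icc (0 : ℝ) 1, HasDerivWithinAt γ (q t) (Icc 0 1) t := fun t ht =>
      (((hψ.differentiable (by simp)) (c t)).hasFDerivAt).comp_hasDerivWithinAt t (hg.vel t ht)
    have hγM : ∀ t ∈ Icc (0 : ℝ) 1, γ t ∈ M n := fun t ht => (hM _ (hg.mem t ht)).1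
    have hqn : ∀ t ∈ Icc (0 : ℝ) 1, nrm G₂ (γ t) (q t) = ℓ := by
      intro t ht
      have h1 : nrm G₂ (γ t) (q t) = nrm G₁ (c t) (v t) := by
        unfold nrm
        rw [hγ, hq]
        simp only
        rw [hiso _ (hg.mem t ht)]
      rw [h1, geod_speed G₁ h₁ 1 c v hg t ht, hc0, hv0]
    have hγ0 : γ 0 = a := by simp only [hγ, hc0, hab]
    -- distance
    have hdist : ∀ t ∈ Icc (0 : ℝ) 1, nrm G₂ a (L₂ (γ t)) = t * ℓ := by
      intro t ht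
      apply le_antisymm
      · have h1 := image_path h₁ hψ (fun x hx => (hM x hx).1) hiso hg ht
        rw [hc0, hab, hv0] at h1
        rw [← h1.2]
        exact path_lower h₂ haM y1 y2 y3 y4 y5 h1.1
      · obtain ⟨⟨c₂, v₂, hg₂, hc20, hv20⟩, hEz⟩ := y4 (γ t) (hγM t ht)
        have hc21 : c₂ 1 = γ t := by rw [y1 c₂ v₂ hg₂ hc20, hv20, hEz]
        have h1 := image_path h₂ hψ' (fun x hx => (hM x hx).2.1)
          (fun x hx u v => isom_inv hψ hψ' hM hiso hx u v) hg₂ (t := 1) ⟨zero_le_one, le_refl _⟩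
        rw [hc20, ha', hv20, hc21, one_mul] at h1
        have h2 : ψ' (γ t) = c t := (hM _ (hg.mem t ht)).2.2.1
        rw [h2] at h1
        have h3 := path_lower h₁ haM x1 x2 x3 x4 x5 h1.1
        rw [h1.2] at h3
        have h4 := ray_eq x1 hg hc0 ht
        rw [h4.2, x5 _ h4.1, nrm_smul, abs_of_nonneg ht.1, hv0] at h3
        exact h3
    -- radial derivative
    have hS : ∀ t ∈ Icc (0 : ℝ) 1, Sf G₂ a L₂ (γ t) = 1 / 2 * (t * ℓ) ^ 2 := by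
      intro t ht
      rw [← hdist t ht, h₂.nrm_sq haM]
      rfl
    have hSd : ∀ t ∈ Icc (0 : ℝ) 1, ⟪G₂ (γ t) (Y (γ t)), q t⟫ = t * ℓ ^ 2 := by
      intro t ht
      have h1 : HasFDerivWithinAt (Sf G₂ a L₂) (fderivWithin ℝ (Sf G₂ a L₂) (M n) (γ t)) (M n)
          (γ t) := (((Sf_contDiffOn (G := G₂) (x := a) y3).differentiableOn (by simp)) _
            (hγM t ht)).hasFDerivWithinAt
      have h2 : HasDerivWithinAt (fun s => Sf G₂ a L₂ (γ s))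
          (fderivWithin ℝ (Sf G₂ a L₂) (M n) (γ t) (q t)) (Icc 0 1) t :=
        h1.comp_hasDerivWithinAt t (hγd t ht) hγM
      have h3 : HasDerivWithinAt (fun s => Sf G₂ a L₂ (γ s)) (t * ℓ ^ 2) (Icc 0 1) t := by
        have h4 : HasDerivAt (fun s : ℝ => 1 / 2 * (s * ℓ) ^ 2) (t * ℓ ^ 2) t := by
          have h5 := (((hasDerivAt_id t).mul_const ℓ).pow 2).const_mul (1 / 2 : ℝ)
          refine h5.congr_deriv ?_
          simp
          ring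
        exact h4.hasDerivWithinAt.congr (fun s hs => hS s hs) (hS t ht)
      rw [← hYg _ (hγM t ht)]
      exact (uniqueDiffOn_Icc one_pos t ht).eq_deriv _ h2 h3
    have hYq : ∀ t ∈ Icc (0 : ℝ) 1, Y (γ t) = t • q t := by
      intro t ht
      by_contra hne
      have hne' : Y (γ t) - t • q t ≠ 0 := sub_ne_zero.mpr hne
      have hpos := h₂.pos _ (hγM t ht) _ hne'
      have e1 : ⟪G₂ (γ t) (Y (γ t)), Y (γ t)⟫ = (t * ℓ) ^ 2 := by
        rw [← h₂.nrm_sq (hγM t ht), hYn _ (hγM t ht), hdist t ht]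
      have e2 : ⟪G₂ (γ t) (q t), q t⟫ = ℓ ^ 2 := by
        rw [← h₂.nrm_sq (hγM t ht), hqn t ht]
      have e3 := hSd t ht
      have e4 : ⟪G₂ (γ t) (q t), Y (γ t)⟫ = t * ℓ ^ 2 := by
        rw [h₂.symm _ (hγM t ht)]; exact e3
      simp only [map_sub, map_smul, inner_sub_left, inner_sub_right, inner_smul_left,
        inner_smul_right, RCLike.conj_to_real, e1, e2, e3, e4] at hpos
      nlinarith
    -- `L₂ (γ t) / t` is constant
    set f : ℝ → E n := fun t => L₂ (γ t) with hf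
    have hfd : ∀ t ∈ Icc (0 : ℝ) 1, HasDerivWithinAt f
        (fderivWithin ℝ L₂ (M n) (γ t) (q t)) (Icc 0 1) t := fun t ht =>
      (hL2d _ (hγM t ht)).comp_hasDerivWithinAt t (hγd t ht) hγM
    have hft : ∀ t ∈ Icc (0 : ℝ) 1, t • fderivWithin ℝ L₂ (M n) (γ t) (q t) = f t := by
      intro t ht
      rw [← map_smul, ← hYq t ht, hrad _ (hγM t ht)]
    have hconst : ∀ t ∈ Ioc (0 : ℝ) 1, t⁻¹ • f t = f 1 := by
      intro t ht
      have hsub : Icc t 1 ⊆ Icc (0 : ℝ) 1 := Icc_subset_Icc ht.1.le le_rfl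
      have hder : ∀ s ∈ Icc t 1, HasDerivWithinAt (fun s => s⁻¹ • f s) 0 (Icc t 1) s := by
        intro s hs
        have hs0 : s ≠ 0 := (lt_of_lt_of_le ht.1 hs.1).ne'
        have h1 := ((hasDerivAt_inv hs0).hasDerivWithinAt (s := Icc t 1)).smul
          ((hfd s (hsub hs)).mono hsub)
        refine h1.congr_deriv ?_
        rw [← hft s (hsub hs), smul_smul, ← add_smul]
        have : s⁻¹ + -(s ^ 2)⁻¹ * s = 0 := by field_simp; ring
        rw [this, zero_smul]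
      have h2 := constant_of_has_deriv_right_zero (f := fun s => s⁻¹ • f s) (a := t) (b := 1)
        (fun s hs => (hder s hs).continuousWithinAt)
        (fun s hs => ((hder s (Ico_subset_Icc_self hs)).mono_of_mem_nhdsWithin
          (Icc_mem_nhdsGE_of_mem hs))) 1 ⟨ht.2, le_refl _⟩
      rw [← h2]
      simp
    have hlim : Tendsto (fun t : ℝ => t⁻¹ • f t) (𝓝[>] 0)
        (𝓝 (fderivWithin ℝ L₂ (M n) (γ 0) (q 0))) := by
      have h1 := hfd 0 ⟨le_refl _, zero_le_one⟩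
      have hf0 : f 0 = 0 := by
        have h2 := hft 0 ⟨le_refl _, zero_le_one⟩
        rw [zero_smul] at h2
        exact h2.symm
      have h2 := h1.mono (Ioc_subset_Icc_self : Ioc (0 : ℝ) 1 ⊆ Icc 0 1)
      rw [hasDerivWithinAt_iff_tendsto_slope' (by simp)] at h2
      have h3 : 𝓝[Ioc (0 : ℝ) 1] 0 = 𝓝[>] 0 := nhdsWithin_Ioc_eq_nhdsGT one_pos
      rw [h3] at h2
      refine h2.congr fun t => ?_
      simp [slope_def_module, hf0]
    have hlim2 : Tendsto (fun t : ℝ => t⁻¹ • f t) (𝓝[>] 0) (𝓝 (f 1)) := by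
      refine tendsto_const_nhds.congr' ?_
      filter_upwards [Ioc_mem_nhdsGT (zero_lt_one' ℝ)] with t ht
      exact (hconst t ht).symm
    have h5 := tendsto_nhds_unique hlim2 hlim
    have h6 : q 0 = fderiv ℝ ψ a (L₁ y) := by
      simp only [hq, hc0, hv0]
    rw [h6, hγ0] at h5
    have h7 : f 1 = L₂ (ψ y) := by simp only [hf, hγ, hc1]
    rw [h7] at h5
    rw [h5]
    rfl
  have hrep : ∀ y ∈ M n, ψ y = E₂ (A (L₁ y)) := by
    intro y hy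
    rw [← key y hy]
    exact ((y4 _ (hM y hy).1).2).symm
  have hcd : ContDiffOn ℝ ∞ (fun y => E₂ (A (L₁ y))) (M n) := by
    refine y2.comp (A.contDiff.comp_contDiffOn x3) fun y hy => ?_
    show A (L₁ y) ∈ expDom G₂ a
    rw [← key y hy]
    exact (y4 _ (hM y hy).1).1
  exact hcd.congr hrep

end KBR
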