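import Pool.Agent.helper21.KBR3.Deps

/-!
Assembly of the boundary rigidity theorem for Kähler metrics with global holomorphic coordinates.
-/

noncomputable section

namespace KBR

open Set MeasureTheory Filter Topology
open scoped ContDiff RealInnerProductSpace

variable {n m : ℕ}

/-- vector valued version of `hartogs` -/
theorem hartogsV (hm : 2 ≤ m) (hnm : n = 2 * m) {Φ : E n → Cn m} {R : Cn m → E n} {δ : ℝ}
    (hΦ : ExtChart Φ R δ) (u : E n → Cn m) (hu : ContDiff ℝ ∞ u)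
    (hub : ∀ x ∈ bM n, ∀ i, HolAt Φ (fun y => u y i) x) :
    ∃ U : E n → Cn m, ContDiff ℝ 1 U ∧ (∀ x ∈ bM n, U x = u x ∧ fderiv ℝ U x = fderiv ℝ u x) ∧
      ∀ x ∈ M n, HolAt Φ U x := by
  have h1 := fun i => hartogs hm hnm hΦ (fun y => u y i) ((contDiff_pi.mp hu) i)
    (fun x hx => hub x hx i)
  choose U hU hUb hUh using h1
  have hUd : ContDiff ℝ 1 (fun x i => U i x) := contDiff_pi.mpr hU
  have hder : ∀ x, fderiv ℝ (fun x i => U i x) x = ContinuousLinearMap.pi fun i => fderiv ℝ (U i) x :=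
    fun x => fderiv_pi (fun i => ((hU i).differentiable (by simp)) x)
  have hderu : ∀ x, fderiv ℝ u x = ContinuousLinearMap.pi fun i => fderiv ℝ (fun y => u y i) x :=
    fun x => fderiv_pi (fun i => (((contDiff_pi.mp hu) i).differentiable (by simp)) x)
  refine ⟨fun x i => U i x, hUd, fun x hx => ⟨?_, ?_⟩, fun x hx => ?_⟩
  · funext i
    exact (hUb i x hx).1
  · rw [hder, hderu]
    congr 1
    funext i
    exact (hUb i x hx).2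
  · choose A hA using fun i => hUh i x hx
    refine ⟨ContinuousLinearMap.pi A, fun v => ?_⟩
    rw [hder]
    funext i
    exact hA i v

/-- `J`-linear maps are holomorphic in the chart -/
lemma holAt_of_J {J : E n → E n →L[ℝ] E n} {Φ : E n → Cn m} {R : Cn m → E n} {δ : ℝ}
    (h : ExtChart Φ R δ) {x : E n} (hx : x ∈ M n)
    (hJ : ∀ v, fderiv ℝ Φ x (J x v) = Complex.I • fderiv ℝ Φ x v) {u : E n → ℂ}
    (hu : ∀ v, fderiv ℝ u x (J x v) = Complex.I * fderiv ℝ u x v) : HolAt Φ u x := by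
  have hxb := h.mem_of_M hx
  set A : Cn m →L[ℝ] ℂ := (fderiv ℝ u x).comp (fderiv ℝ R (Φ x)) with hA
  have hI : ∀ z, A (Complex.I • z) = Complex.I • A z := by
    intro z
    have h1 : fderiv ℝ R (Φ x) (Complex.I • z) = J x (fderiv ℝ R (Φ x) z) := by
      have h2 := hJ (fderiv ℝ R (Φ x) z)
      rw [h.right_deriv' hxb] at h2
      rw [← h2, h.left_deriv hxb]
    simp only [hA, ContinuousLinearMap.comp_apply, h1, hu, smul_eq_mul]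
  have hlin : ∀ (c : ℂ) z, A (c • z) = c • A z := by
    intro c z
    have h1 : c • z = (c.re : ℝ) • z + (c.im : ℝ) • (Complex.I • z) := by
      funext i
      simp only [Pi.smul_apply, Pi.add_apply, smul_eq_mul, Complex.real_smul]
      conv_lhs => rw [← Complex.re_add_im c]
      ring
    rw [h1, map_add, map_smul, map_smul, hI]
    simp only [smul_eq_mul, Complex.real_smul]
    conv_rhs => rw [← Complex.re_add_im c]
    ring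
  refine ⟨⟨⟨⟨fun z => A z, fun y z => map_add A y z⟩, hlin⟩, A.continuous⟩, fun v => ?_⟩
  show fderiv ℝ u x v = A (fderiv ℝ Φ x v)
  simp only [hA, ContinuousLinearMap.comp_apply]
  rw [h.left_deriv hxb]

/-- the extension of the holomorphic coordinates of the second structure -/
theorem extension (hm : 2 ≤ m) (hnm : n = 2 * m) {J₁ J₂ F : E n → E n →L[ℝ] E n}
    {Φ₁ Φ₂ : E n → Cn m} {R : Cn m → E n} {δ : ℝ} (c₁ : HolChart J₁ Φ₁) (c₂ : HolChart J₂ Φ₂)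
    (h : ExtChart Φ₁ R δ) (hF : ∀ x ∈ bM n, ContDiffAt ℝ ∞ F x)
    (hFt : ∀ x ∈ bM n, ∀ v, ⟪x, v⟫ = 0 → F x v = v)
    (hFJ : ∀ x ∈ bM n, ∀ v, F x (J₁ x v) = J₂ x (F x v)) :
    ∃ U : E n → Cn m, ContDiff ℝ 1 U ∧
      (∀ x ∈ bM n, U x = Φ₂ x ∧ ∀ v, fderiv ℝ U x v = fderiv ℝ Φ₂ x (F x v)) ∧
      ∀ x ∈ M n, HolAt Φ₁ U x := by
  obtain ⟨u, hu, hub⟩ := jet_ext c₂.smooth hF hFt
  have hderu : ∀ x, fderiv ℝ u x = ContinuousLinearMap.pi fun i => fderiv ℝ (fun y => u y i) x :=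
    fun x => fderiv_pi (fun i => (((contDiff_pi.mp hu) i).differentiable (by simp)) x)
  obtain ⟨U, hU, hUb, hUh⟩ := hartogsV hm hnm h u hu (fun x hx i => by
    refine holAt_of_J h (bM_sub_M hx) (c₁.hol x (bM_sub_M hx)) fun v => ?_
    have h1 : ∀ v, fderiv ℝ (fun y => u y i) x v = fderiv ℝ u x v i := fun v => by
      rw [hderu]; rfl
    rw [h1, h1, (hub x hx).2, (hub x hx).2, hFJ x hx, c₂.hol x (bM_sub_M hx)]
    rfl)
  refine ⟨U, hU, fun x hx => ⟨by rw [(hUb x hx).1, (hub x hx).1], fun v => ?_⟩, hUh⟩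
  rw [(hUb x hx).2, (hub x hx).2]

lemma Fb_tan (G₁ G₂ : E n → E n →L[ℝ] E n) {x v : E n} (hv : ⟪x, v⟫ = 0) :
    Fb G₁ G₂ x v = v := by
  rw [Fb_apply, hv]; simp

/-- Boundary rigidity, complex structures compatible at one boundary point. -/
theorem kd_aligned (hm : 2 ≤ m) (hnm : n = 2 * m) {G₁ G₂ J₁ J₂ : E n → E n →L[ℝ] E n}
    {Φ₁ Φ₂ : E n → Cn m} (k₁ : IsAlmostKahler G₁ J₁) (k₂ : IsAlmostKahler G₂ J₂)
    (c₁ : HolChart J₁ Φ₁) (c₂ : HolChart J₂ Φ₂)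
    (e₁ : ∀ x ∈ M n, ExpDiffeo G₁ x) (e₂ : ∀ x ∈ M n, ExpDiffeo G₂ x) (hd : BdEq G₁ G₂)
    {p : E n} (hp : p ∈ bM n) (hal : ∀ v, Fb G₁ G₂ p (J₁ p v) = J₂ p (Fb G₁ G₂ p v)) :
    ∃ ψ ψ' : E n → E n, ContDiff ℝ 1 ψ ∧ ContDiff ℝ 1 ψ' ∧
      ContDiffOn ℝ ∞ ψ (Metric.ball 0 1) ∧
      (∀ x ∈ M n, ψ x ∈ M n ∧ ψ' x ∈ M n ∧ ψ' (ψ x) = x ∧ ψ (ψ' x) = x) ∧
      (∀ x ∈ bM n, ψ x = x) ∧
      (∀ x ∈ M n, ∀ u v, ⟪G₂ (ψ x) (fderiv ℝ ψ x u), fderiv ℝ ψ x v⟫ = ⟪G₁ x u, v⟫) ∧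
      (∀ x ∈ M n, ∀ v, fderiv ℝ ψ x (J₁ x v) = J₂ (ψ x) (fderiv ℝ ψ x v)) := by
  have hn : 2 ≤ n := by omega
  have h₁ := k₁.metric
  have h₂ := k₂.metric
  have p₁ := kahler_par hnm k₁ c₁
  have p₂ := kahler_par hnm k₂ c₂
  have ht : ∀ a ∈ bM n, ∀ u v, ⟪a, u⟫ = 0 → ⟪a, v⟫ = 0 → ⟪G₁ a u, v⟫ = ⟪G₂ a u, v⟫ :=
    fun a ha u v hu hv => tan_eq h₁ h₂ hd ha hu hv
  have ht' : ∀ a ∈ bM n, ∀ u v, ⟪a, u⟫ = 0 → ⟪a, v⟫ = 0 → ⟪G₂ a u, v⟫ = ⟪G₁ a u, v⟫ :=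
    fun a ha u v hu hv => (ht a ha u v hu hv).symm
  have hFpar := conn_par h₁ h₂ ht (fun a ha w hw haw => jet_eq h₁ h₂ e₁ e₂ hd ha hw haw)
  have hFJ := par_ode hn h₁ h₂ k₁.smoothJ k₂.smoothJ hFpar p₁ p₂ hp hal
  have hinv : ∀ x ∈ bM n, ∀ v, Fb G₂ G₁ x (Fb G₁ G₂ x v) = v := fun x hx v => Fb_inv h₁ h₂ hx v
  have hinv' : ∀ x ∈ bM n, ∀ v, Fb G₁ G₂ x (Fb G₂ G₁ x v) = v := fun x hx v => Fb_inv h₂ h₁ hx v
  have hFJ' : ∀ x ∈ bM n, ∀ v, Fb G₂ G₁ x (J₂ x v) = J₁ x (Fb G₂ G₁ x v) := by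
    intro x hx v
    have h := hFJ x hx (Fb G₂ G₁ x v)
    rw [hinv' x hx] at h
    rw [← h, hinv x hx]
  obtain ⟨R₁, δ₁, x₁⟩ := ext_chart hnm c₁.smooth c₁.inj c₁.imm
  obtain ⟨R₂, δ₂, x₂⟩ := ext_chart hnm c₂.smooth c₂.inj c₂.imm
  obtain ⟨U, hU, hUb, hUh⟩ := extension hm hnm c₁ c₂ x₁ (fun x hx => Fb_smooth h₁ h₂ hx)
    (fun x hx v hv => Fb_tan G₁ G₂ hv) hFJ
  obtain ⟨U', hU', hU'b, hU'h⟩ := extension hm hnm c₂ c₁ x₂ (fun x hx => Fb_smooth h₂ h₁ hx)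
    (fun x hx v hv => Fb_tan G₂ G₁ hv) hFJ'
  have gl := glue hn x₁ x₂ (Fb G₁ G₂) (Fb G₂ G₁) hinv (fun x hx => Fb_pos h₁ h₂ hx) hU hU' hUb hU'b
    hUh hU'h
  have gl' := glue hn x₂ x₁ (Fb G₂ G₁) (Fb G₁ G₂) hinv' (fun x hx => Fb_pos h₂ h₁ hx) hU' hU hU'b
    hUb hU'h hUh
  set ψ : E n → E n := fun x => R₂ (U x) with hψ
  set ψ' : E n → E n := fun x => R₁ (U' x) with hψ'
  have hψ1 : ContDiff ℝ 1 ψ := (x₂.smoothR.of_le (by exact_mod_cast le_top)).comp hU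
  have hψ'1 : ContDiff ℝ 1 ψ' := (x₁.smoothR.of_le (by exact_mod_cast le_top)).comp hU'
  have hψM : MapsTo ψ (M n) (M n) := fun x hx => (gl x hx).1
  have hψb : ∀ x ∈ bM n, ψ x = x := by
    intro x hx
    simp only [hψ, (hUb x hx).1]
    exact x₂.left x (x₂.mem_of_M (bM_sub_M hx))
  have hUd : ∀ x, HasFDerivAt U (fderiv ℝ U x) x := fun x =>
    ((hU.differentiable (by simp)) x).hasFDerivAt
  have hdψ : ∀ x v, fderiv ℝ ψ x v = fderiv ℝ R₂ (U x) (fderiv ℝ U x v) := by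
    intro x v
    have h := (x₂.dR (U x)).comp x (hUd x)
    rw [show ψ = R₂ ∘ U from rfl, h.fderiv]; rfl
  have hdψb : ∀ x ∈ bM n, ∀ v, fderiv ℝ ψ x v = Fb G₁ G₂ x v := by
    intro x hx v
    rw [hdψ, (hUb x hx).1, (hUb x hx).2, x₂.left_deriv (x₂.mem_of_M (bM_sub_M hx))]
  -- smoothness in the interior
  have hbM : Metric.ball (0 : E n) 1 ⊆ M n := Metric.ball_subset_closedBall
  have hb1 : Metric.ball (0 : E n) 1 ⊆ Metric.ball (0 : E n) (1 + δ₁) :=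
    Metric.ball_subset_ball (by linarith [x₁.pos])
  have hO : IsOpen (Φ₁ '' Metric.ball (0 : E n) 1) := x₁.isOpen_image Metric.isOpen_ball hb1
  have hsm : ContDiffOn ℝ ∞ (fun z => U (R₁ z)) (Φ₁ '' Metric.ball (0 : E n) 1) := by
    refine hol_smooth hO ?_ ?_
    · exact (hU.comp (x₁.smoothR.of_le (by exact_mod_cast le_top))).contDiffOn
    · rintro _ ⟨x, hx, rfl⟩
      exact (x₁.differentiableAt_of_holAt (hb1 hx) ((hU.differentiable (by simp)) x)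
        (hUh x (hbM hx))).differentiableWithinAt
  have hUs : ContDiffOn ℝ ∞ U (Metric.ball 0 1) := by
    have h := hsm.comp x₁.smooth.contDiffOn (fun x (hx : x ∈ Metric.ball (0 : E n) 1) =>
      (⟨x, hx, rfl⟩ : Φ₁ x ∈ Φ₁ '' Metric.ball (0 : E n) 1))
    refine h.congr fun x hx => ?_
    simp only [Function.comp_apply, x₁.left x (hb1 hx)]
  have hψs : ContDiffOn ℝ ∞ ψ (Metric.ball 0 1) := x₂.smoothR.comp_contDiffOn hUs
  -- holomorphy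
  have hJR : ∀ y ∈ M n, ∀ z, fderiv ℝ R₂ (Φ₂ y) (Complex.I • z) =
      J₂ y (fderiv ℝ R₂ (Φ₂ y) z) := by
    intro y hy z
    have hyb := x₂.mem_of_M hy
    have h := c₂.hol y hy (fderiv ℝ R₂ (Φ₂ y) z)
    rw [x₂.right_deriv' hyb] at h
    rw [← h, x₂.left_deriv hyb]
  have hol : ∀ x ∈ M n, ∀ v, fderiv ℝ ψ x (J₁ x v) = J₂ (ψ x) (fderiv ℝ ψ x v) := by
    intro x hx v
    obtain ⟨A, hA⟩ := hUh x hx
    have h1 : fderiv ℝ U x (J₁ x v) = Complex.I • fderiv ℝ U x v := by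
      rw [hA, hA, c₁.hol x hx, map_smul]
    have h2 := hJR (ψ x) (gl x hx).1 (fderiv ℝ U x v)
    have h3 : Φ₂ (ψ x) = U x := (gl x hx).2.1
    rw [h3] at h2
    rw [hdψ, hdψ, h1, h2]
  -- energy
  have hGc := h₂.smooth.continuous
  have hBc : Continuous (pb ψ G₂) := by
    have h6 : Continuous (fderiv ℝ ψ) := hψ1.continuous_fderiv (by simp)
    have h7 : Continuous (fun x => ContinuousLinearMap.adjoint (fderiv ℝ ψ x)) :=
      adj_continuous.comp h6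
    have h8 : Continuous (fun x => (G₂ (ψ x)).comp (fderiv ℝ ψ x)) :=
      (hGc.comp hψ1.continuous).clm_comp h6
    exact h7.clm_comp h8
  have hBs : ∀ x ∈ M n, ∀ u v, ⟪pb ψ G₂ x u, v⟫ = ⟪pb ψ G₂ x v, u⟫ := by
    intro x hx u v
    rw [pb_inner, pb_inner]
    exact h₂.symm _ (hψM hx) _ _
  have hcl := pb_closed1 ψ (hψs.of_le (WithTop.coe_le_coe.mpr (le_top : (2 : ℕ∞) ≤ ⊤))) hψM G₂ J₁ J₂ k₁.smoothJ k₂ hol
  have htr := trace_identity1 (by omega) G₁ J₁ (pb ψ G₂) k₁ hBc (fun x hx => (hcl x hx).1) hBs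
    (pb_inv ψ hψM G₂ J₁ J₂ k₂ hol) (fun x hx => (hcl x hx).2) (fun x hx => by
      ext1 u
      refine ext_inner_right ℝ fun v => ?_
      rw [pb_inner, hdψb x hx, hdψb x hx, hψb x hx]
      exact Fb_isom h₁ h₂ hx (ht x hx) u v)
  have hen := (energy1 h₁ e₁ h₂ ψ hψ1 hψM hψb (fun a ha b hb => (hd a ha b hb).le)).2 htr.le
  refine ⟨ψ, ψ', hψ1, hψ'1, hψs, fun x hx => ⟨(gl x hx).1, (gl' x hx).1, (gl x hx).2.2,
    (gl' x hx).2.2⟩, hψb, fun x hx u v => ?_, hol⟩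
  rw [← pb_inner]
  exact polarize (hBs x hx) (h₁.symm x hx) (hen x hx) u v

end KBR
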