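import Pool.Agent.helper30.KBR.PullClosed

/-!
# MODULE E3: pull-back of a closed fundamental form at interior points (`ψ` of class `C²`)
-/

noncomputable section

namespace KBR

open Set MeasureTheory
open scoped ContDiff RealInnerProductSpace

variable {n : ℕ}

theorem pb_closed1 (ψ : E n → E n) (hψ : ContDiffOn ℝ 2 ψ (Metric.ball 0 1))
    (hψM : MapsTo ψ (M n) (M n))
    (G J J' : E n → E n →L[ℝ] E n) (hJ : ContDiff ℝ ∞ J) (h : IsAlmostKahler G J')
    (hol : ∀ x ∈ M n, ∀ v, fderiv ℝ ψ x (J x v) = J' (ψ x) (fderiv ℝ ψ x v)) :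
    ∀ x ∈ Metric.ball (0 : E n) 1, ContDiffAt ℝ 1 (pb ψ G) x ∧ ∀ u v w,
      ⟪fderiv ℝ (fun y => (pb ψ G y).comp (J y)) x u v, w⟫ +
      ⟪fderiv ℝ (fun y => (pb ψ G y).comp (J y)) x v w, u⟫ +
      ⟪fderiv ℝ (fun y => (pb ψ G y).comp (J y)) x w u, v⟫ = 0 := by
  intro x hx
  have hψx : ContDiffAt ℝ 2 ψ x := hψ.contDiffAt (Metric.isOpen_ball.mem_nhds hx)
  have hd : ContDiffAt ℝ 1 (fderiv ℝ ψ) x := hψx.fderiv_right (by norm_num)
  have hψ1 : ContDiffAt ℝ 1 ψ x := hψx.of_le (by norm_num)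
  have hG1 : ContDiffAt ℝ 1 (fun y => G (ψ y)) x :=
    (h.metric.smooth.of_le (by exact_mod_cast le_top)).contDiffAt.comp x hψ1
  have hpb : ContDiffAt ℝ 1 (pb ψ G) x := by
    have h2 : ContDiffAt ℝ 1 (fun x => adjL n (fderiv ℝ ψ x)) x :=
      (adjL n).contDiff.contDiffAt.comp x hd
    exact h2.clm_comp (hG1.clm_comp hd)
  refine ⟨hpb, ?_⟩
  have hom : ContDiffAt ℝ 1 (fun y => (pb ψ G y).comp (J y)) x :=
    hpb.clm_comp (hJ.of_le (by exact_mod_cast le_top)).contDiffAt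
  have hOm : ContDiff ℝ ∞ (fun y => (G y).comp (J' y)) := h.metric.smooth.clm_comp h.smoothJ
  set om : E n → E n →L[ℝ] E n := fun y => (pb ψ G y).comp (J y) with homd
  set Om : E n → E n →L[ℝ] E n := fun y => (G y).comp (J' y) with hOmd
  intro u v w
  have hxM : x ∈ M n := Metric.ball_subset_closedBall hx
  have hder : ∀ u v w, ⟪fderiv ℝ om x u v, w⟫ =
      ⟪fderiv ℝ Om (ψ x) (fderiv ℝ ψ x u) (fderiv ℝ ψ x v), fderiv ℝ ψ x w⟫ +
      ⟪Om (ψ x) (fderiv ℝ (fderiv ℝ ψ) x u v), fderiv ℝ ψ x w⟫ +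
      ⟪Om (ψ x) (fderiv ℝ ψ x v), fderiv ℝ (fderiv ℝ ψ) x u w⟫ := by
    intro u v w
    have e1 : HasFDerivAt (fun y => ⟪om y v, w⟫)
        ((innerSL ℝ w).comp ((ContinuousLinearMap.apply ℝ (E n) v).comp (fderiv ℝ om x))) x := by
      have a1 : HasFDerivAt om (fderiv ℝ om x) x :=
        (hom.differentiableAt (by simp)).hasFDerivAt
      have a2 := ((innerSL ℝ w).comp (ContinuousLinearMap.apply ℝ (E n) v)).hasFDerivAt.comp x a1
      refine a2.congr_of_eventuallyEq (Filter.Eventually.of_forall fun y => ?_)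
      simp [real_inner_comm]
    have b1 : HasFDerivAt (fun y => Om (ψ y)) ((fderiv ℝ Om (ψ x)).comp (fderiv ℝ ψ x)) x :=
      (hOm.differentiable (by simp) (ψ x)).hasFDerivAt.comp x
        (hψ1.differentiableAt (by simp)).hasFDerivAt
    have b2 : HasFDerivAt (fderiv ℝ ψ) (fderiv ℝ (fderiv ℝ ψ) x) x :=
      (hd.differentiableAt (by simp)).hasFDerivAt
    have b3 : ∀ v, HasFDerivAt (fun y => fderiv ℝ ψ y v)
        ((ContinuousLinearMap.apply ℝ (E n) v).comp (fderiv ℝ (fderiv ℝ ψ) x)) x := fun v =>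
      ((ContinuousLinearMap.apply ℝ (E n) v).hasFDerivAt).comp x b2
    have e2 := (b1.clm_apply (b3 v)).inner ℝ (b3 w)
    have e3 : HasFDerivAt (fun y => ⟪Om (ψ y) (fderiv ℝ ψ y v), fderiv ℝ ψ y w⟫)
        ((innerSL ℝ w).comp ((ContinuousLinearMap.apply ℝ (E n) v).comp (fderiv ℝ om x))) x := by
      refine e1.congr_of_eventuallyEq ?_
      filter_upwards [Metric.isOpen_ball.mem_nhds hx] with y hy
      have hyM : y ∈ M n := Metric.ball_subset_closedBall hy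
      simp only [homd, hOmd, ContinuousLinearMap.comp_apply, pb_inner, hol y hyM]
    have e4 := congrArg (fun A : E n →L[ℝ] ℝ => A u) (e3.unique e2)
    simp only [ContinuousLinearMap.comp_apply, innerSL_apply_apply,
      ContinuousLinearMap.apply_apply] at e4
    rw [real_inner_comm] at e4
    rw [e4]
    simp [inner_add_left]
    ring
  have hzM := hψM hxM
  have hcl := h.closed (ψ x) hzM (fderiv ℝ ψ x u) (fderiv ℝ ψ x v) (fderiv ℝ ψ x w)
  have hanti : ∀ a b, ⟪Om (ψ x) a, b⟫ = -⟪Om (ψ x) b, a⟫ := fun a b => by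
    simpa [hOmd] using omega_antisymm G J' h (ψ x) hzM a b
  have hsymm : ∀ a b, fderiv ℝ (fderiv ℝ ψ) x a b = fderiv ℝ (fderiv ℝ ψ) x b a := by
    intro a b
    have := hψx.isSymmSndFDerivAt (by rw [minSmoothness_of_isRCLikeNormedField])
    exact this a b
  rw [hder, hder, hder, hanti (fderiv ℝ ψ x v), hanti (fderiv ℝ ψ x w), hanti (fderiv ℝ ψ x u),
    hsymm v u, hsymm w v, hsymm w u]
  linarith

end KBR
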