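import Pool.Agent.helper21.KBR.Stmt
import Pool.Agent.helper21.KBR3.Gen
import Pool.Agent.helper21.KBR3.IsoSmooth
import Pool.Agent.helper16.KBR3.CurvSymm
import Pool.Agent.helper74.KBR3.CommUnique

/-!
# Definitions used in the statement of the theorem on Kähler metrics with holomorphic coordinates
-/

noncomputable section

namespace KBR.St

open Set MeasureTheory
open scoped ContDiff RealInnerProductSpace

variable {n m : ℕ}

/-- differential of a map to `ℂᵐ` -/
def difC (Φ : E n → Cn m) (x v : E n) : Cn m := fderiv ℝ Φ x v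

/-- `Φ : M → ℂᵐ` is a smooth embedding of `M` (the restriction of a smooth map) which is
holomorphic for the almost complex structure `J`: global holomorphic coordinates on `(M, J)`. -/
structure HolCoord (J : Fld n) (Φ : E n → Cn m) : Prop where
  smooth : ContDiff ℝ ∞ Φ
  inj : InjOn Φ (M n)
  imm : ∀ x ∈ M n, ∀ v, difC Φ x v = 0 → v = 0
  hol : ∀ x ∈ M n, ∀ v, difC Φ x (act J x v) = Complex.I • difC Φ x v

/-- equal boundary distance functions -/
def BdSame (G₁ G₂ : Fld n) : Prop := ∀ a ∈ bM n, ∀ b ∈ bM n, rdist G₁ a b = rdist G₂ a b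

/-- value of a linear map -/
def app (F : E n →L[ℝ] E n) (v : E n) : E n := F v

/-- `F : (T_pM, g₁) → (T_pM, g₂)` is a linear isometry, the identity on `T_p∂M`, and it preserves
the side of `T_p∂M` (it is determined by `g₁`, `g₂` and `p ∈ ∂M`; if `ψ^* g₂ = g₁` with `ψ = id` on
`∂M` then `F = dψ_p`). -/
structure BdIsom (G₁ G₂ : Fld n) (p : E n) (F : E n →L[ℝ] E n) : Prop where
  tan : ∀ v, ⟪p, v⟫ = 0 → app F v = v
  isom : ∀ u v, gm G₂ p (app F u) (app F v) = gm G₁ p u v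
  side : 0 < ⟪app F p, p⟫

/-- the complex structures `J₁`, `J₂` agree, up to sign, at the boundary point `p` (under the
identification `F` of the tangent spaces) -/
def Aligned (G₁ G₂ J₁ J₂ : Fld n) (p : E n) : Prop :=
  ∃ F : E n →L[ℝ] E n, BdIsom G₁ G₂ p F ∧
    ((∀ v, app F (act J₁ p v) = act J₂ p (app F v)) ∨
      (∀ v, app F (act J₁ p v) = -act J₂ p (app F v)))

/-- `Γ` are the Christoffel symbols of the metric `g`:
`g(Γ(u, v), w) = ½ ((D_u g)(v, w) + (D_v g)(u, w) - (D_w g)(u, v))` on `M`. -/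
def Christoffel (G : Fld n) (Γ : E n → E n → E n → E n) : Prop :=
  ∀ x ∈ M n, ∀ u v w, gm G x (Γ x u v) w = 1 / 2 * (dgm G x u v w + dgm G x v u w - dgm G x w u v)

/-- directional derivative at `x ∈ M` of a map `f : M → ℝⁿ` -/
def difM (f : E n → E n) (x u : E n) : E n := fderivWithin ℝ f (M n) x u

/-- Riemann curvature `R(u, v) w = (D_u Γ)(v, w) - (D_v Γ)(u, w) + Γ(u, Γ(v, w)) - Γ(v, Γ(u, w))` at
`x`, in terms of the Christoffel symbols -/
def riem (Γ : E n → E n → E n → E n) (x u v w : E n) : E n :=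
  difM (fun y => Γ y v w) x u - difM (fun y => Γ y u w) x v + Γ x u (Γ x v w) - Γ x v (Γ x u w)

/-- genericity of the curvature of `g` at the boundary point `p`: `± J_p` are the only
`g`-orthogonal complex structures `K` on `T_pM` which commute with all curvature operators
`R(u, v)`, `u, v ∈ T_p∂M`. -/
def GenericAt (G J : Fld n) (p : E n) : Prop :=
  ∀ Γ : E n → E n → E n → E n, Christoffel G Γ →
    ∀ K : E n →L[ℝ] E n, (∀ v, app K (app K v) = -v) →
      (∀ u v, gm G p (app K u) (app K v) = gm G p u v) →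
      (∀ u v, ⟪p, u⟫ = 0 → ⟪p, v⟫ = 0 →
        ∀ w, riem Γ p u v (app K w) = app K (riem Γ p u v w)) →
      (∀ v, app K v = act J p v) ∨ (∀ v, app K v = -act J p v)

/-- the sectional curvatures of `g` at the boundary point `p`, of the planes in `T_p∂M`, are all
positive or all negative: `g(R(u, v) v, u)` has a constant sign for linearly independent
`u, v ∈ T_p∂M`. -/
def SecSign (G : Fld n) (p : E n) : Prop :=
  ∀ Γ : E n → E n → E n → E n, Christoffel G Γ →
    (∀ u v, ⟪p, u⟫ = 0 → ⟪p, v⟫ = 0 → LinearIndependent ℝ ![u, v] →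
      0 < gm G p (riem Γ p u v v) u) ∨
    (∀ u v, ⟪p, u⟫ = 0 → ⟪p, v⟫ = 0 → LinearIndependent ℝ ![u, v] →
      gm G p (riem Γ p u v v) u < 0)

/-- `ψ` is a diffeomorphism of `M`, smooth up to the boundary, with inverse `ψ'`, and the identity
on `∂M`.  (`ψ` is the restriction of a `C¹` map of `ℝⁿ`, so that `dψ` makes sense on `∂M`.) -/
structure BdDiffeo (ψ ψ' : E n → E n) : Prop where
  c1 : ContDiff ℝ 1 ψ
  smooth : SmoothOn ψ (M n)
  smooth' : SmoothOn ψ' (M n)
  maps : ∀ x ∈ M n, ψ x ∈ M n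
  maps' : ∀ x ∈ M n, ψ' x ∈ M n
  left : ∀ x ∈ M n, ψ' (ψ x) = x
  right : ∀ x ∈ M n, ψ (ψ' x) = x
  bd : ∀ x ∈ bM n, ψ x = x

/-- the field `-J` -/
def negF (J : Fld n) : Fld n := fun x => -J x

lemma HolCoord.old {J : Fld n} {Φ : E n → Cn m} (h : HolCoord J Φ) : HolChart J Φ :=
  ⟨h.smooth, h.inj, h.imm, h.hol⟩

lemma Aligned.old {G₁ G₂ J₁ J₂ : Fld n} {p : E n} (h₁ : Metric G₁) (h₂ : Metric G₂)
    (hd : BdSame G₁ G₂) (hp : p ∈ bM n) (h : Aligned G₁ G₂ J₁ J₂ p) :
    (∀ v, Fb G₁ G₂ p (J₁ p v) = J₂ p (Fb G₁ G₂ p v)) ∨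
      (∀ v, Fb G₁ G₂ p (J₁ p v) = -J₂ p (Fb G₁ G₂ p v)) := by
  obtain ⟨F, hF, hal⟩ := h
  have ht : ∀ u v, ⟪p, u⟫ = 0 → ⟪p, v⟫ = 0 → ⟪G₁ p u, v⟫ = ⟪G₂ p u, v⟫ :=
    fun u v hu hv => tan_eq h₁.old h₂.old hd hp hu hv
  have hpn : ⟪p, p⟫ = 1 := by
    have : ‖p‖ = 1 := by simpa [bM] using hp
    rw [real_inner_self_eq_norm_sq, this]; norm_num
  have hdec : ∀ v, ⟪p, F v⟫ = ⟪p, v⟫ * ⟪F p, p⟫ := by
    intro v
    have h1 : v = (v - ⟪p, v⟫ • p) + ⟪p, v⟫ • p := by abel
    have h2 : ⟪p, v - ⟪p, v⟫ • p⟫ = 0 := by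
      rw [inner_sub_right, inner_smul_right, hpn]; ring
    have h3 : F (v - ⟪p, v⟫ • p) = v - ⟪p, v⟫ • p := hF.tan _ h2
    conv_lhs => rw [h1]
    rw [map_add, h3, inner_add_right, h2, map_smul, inner_smul_right, real_inner_comm (F p) p]
    ring
  have hpos : ∀ v, 0 ≤ ⟪p, v⟫ → Fb G₁ G₂ p v = F v := by
    intro v hv
    refine Fb_det h₁.old h₂.old hp ht (fun w hw => ?_) (hF.isom v v).symm hv ?_
    · have h1 : gm G₂ p (app F v) (app F w) = gm G₁ p v w := hF.isom v w
      rw [hF.tan w hw] at h1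
      exact h1.symm
    · rw [hdec]
      exact mul_nonneg hv hF.side.le
  have hall : ∀ v, Fb G₁ G₂ p v = F v := by
    intro v
    rcases le_total 0 ⟪p, v⟫ with h | h
    · exact hpos v h
    · have h1 := hpos (-v) (by rw [inner_neg_right]; linarith)
      rw [map_neg, map_neg, neg_inj] at h1
      exact h1
  rcases hal with h | h
  · left
    intro v
    rw [hall, hall]; exact h v
  · right
    intro v
    rw [hall, hall]; exact h v

/-- the Christoffel symbols of `G` (in the sense of `KBR.chr`) -/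
lemma christoffel_chr {G : Fld n} (h : Metric G) : Christoffel G (fun x u v => chr G x u v) :=
  fun _ hx u v w => chr_inner h.old hx u v w

/-- curvature in terms of `KBR.curv` -/
lemma riem_chr {G : Fld n} (h : Metric G) {x : E n} (hx : x ∈ M n) (u v w : E n) :
    riem (fun x u v => chr G x u v) x u v w = curv G x u v w := by
  have hd : ∀ u, DifferentiableAt ℝ (fun y => chr G y u) x := fun u => by
    have h2 := ((CC.chrL_contDiffAt h.old hx).differentiableAt (by simp)).clm_apply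
      (differentiableAt_const u)
    exact h2
  have h1 : ∀ a b c, difM (fun y => chr G y b c) x a = fderiv ℝ (fun y => chr G y b) x a c := by
    intro a b c
    have h2 : HasFDerivAt (fun y => chr G y b c)
        ((ContinuousLinearMap.apply ℝ (E n) c).comp (fderiv ℝ (fun y => chr G y b) x)) x :=
      (ContinuousLinearMap.apply ℝ (E n) c).hasFDerivAt.comp x (hd b).hasFDerivAt
    show fderivWithin ℝ (fun y => chr G y b c) (M n) x a = _
    rw [h2.hasFDerivWithinAt.fderivWithin (uniqueDiffOn_M x hx)]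
    rfl
  simp only [riem, h1, curv, _root_.sub_apply, _root_.add_apply, ContinuousLinearMap.comp_apply]

lemma GenericAt.old {G J : Fld n} {p : E n} (hG : Metric G) (hp : p ∈ bM n)
    (h : GenericAt G J p) : Generic G J p := by
  intro K h1 h2 h3
  refine h _ (christoffel_chr hG) K h1 h2 fun u v hu hv w => ?_
  rw [riem_chr hG (bM_sub_M hp), riem_chr hG (bM_sub_M hp)]
  exact h3 u v hu hv w

/-- sectional curvatures of one sign on `T_p∂M`: `± J` are the only complex structures commuting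
with the curvature -/
lemma SecSign.old (hnm : n = 2 * m) {G J : Fld n} {Φ : E n → Cn m} (h : AlmostKahler G J)
    (c : HolCoord J Φ) {p : E n} (hp : p ∈ bM n) (hs : SecSign G p) : Generic G J p := by
  intro K h1 h2 h3
  have hpM := bM_sub_M hp
  have P := kahler_par hnm h.old c.old
  obtain ⟨r1, r2, r3, r4, r5⟩ := curv_symm h.old P hpM
  have hp0 : p ≠ 0 := by
    intro h0
    have : ‖p‖ = 1 := by simpa [bM] using hp
    rw [h0, norm_zero] at this
    exact zero_ne_one this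
  refine comm_unique (g := G p) (R := curv G p) (h.old.metric.symm p hpM)
    (h.old.metric.pos p hpM) (h.old.sq p hpM) (h.old.inv p hpM) h1 h2 r1 r2 r3 r4 r5 hp0 h3 ?_
  rcases hs _ (christoffel_chr h.metric) with h4 | h4
  · refine Or.inl fun u v hu hv hi => ?_
    have := h4 u v hu hv hi
    rwa [riem_chr h.metric hpM] at this
  · refine Or.inr fun u v hu hv hi => ?_
    have := h4 u v hu hv hi
    rwa [riem_chr h.metric hpM] at this

/-- the theorem in terms of the definitions of this file -/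
theorem kahlerDomains (m : ℕ) (hm : 2 ≤ m) (G₁ G₂ J₁ J₂ : Fld (2 * m))
    (Φ₁ Φ₂ : E (2 * m) → Cn m) (h₁ : AlmostKahler G₁ J₁) (h₂ : AlmostKahler G₂ J₂)
    (c₁ : HolCoord J₁ Φ₁) (c₂ : HolCoord J₂ Φ₂)
    (s₁ : ∀ x ∈ M (2 * m), St.ExpDiffeo G₁ x) (s₂ : ∀ x ∈ M (2 * m), St.ExpDiffeo G₂ x)
    (hd : BdSame G₁ G₂) (p : E (2 * m)) (hp : p ∈ bM (2 * m))
    (hal : Aligned G₁ G₂ J₁ J₂ p ∨ SecSign G₁ p ∨ GenericAt G₁ J₁ p) :
    ∃ ψ ψ' : E (2 * m) → E (2 * m), BdDiffeo ψ ψ' ∧ PullEq G₁ G₂ ψ ∧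
      (PseudoHol J₁ J₂ ψ ∨ PseudoHol J₁ (negF J₂) ψ) := by
  have e₁ : ∀ x ∈ M (2 * m), KBR.ExpDiffeo G₁ x := fun x hx => (s₁ x hx).old
  have e₂ : ∀ x ∈ M (2 * m), KBR.ExpDiffeo G₂ x := fun x hx => (s₂ x hx).old
  obtain ⟨ψ, ψ', a1, a2, -, a4, a5, a6, a7⟩ := kd_main hm rfl h₁.old h₂.old c₁.old c₂.old e₁ e₂
    hd hp (by
      rcases hal with h | h | h
      · rcases h.old h₁.metric h₂.metric hd hp with h | h
        · exact Or.inl h
        · exact Or.inr (Or.inl h)
      · exact Or.inr (Or.inr (h.old rfl h₁ c₁ hp))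
      · exact Or.inr (Or.inr (h.old h₁.metric hp)))
  have b5 : ψ' p = p := by
    have := (a4 p (bM_sub_M hp)).2.2.1
    rwa [a5 p hp] at this
  have hs := iso_smooth h₁.metric.old h₂.metric.old e₁ e₂ a1 a2 a4 a6 hp (a5 p hp)
  have hs' := iso_smooth h₂.metric.old h₁.metric.old e₂ e₁ a2 a1
    (fun x hx => ⟨(a4 x hx).2.1, (a4 x hx).1, (a4 x hx).2.2.2, (a4 x hx).2.2.1⟩)
    (fun x hx u v => ISO.isom_inv a1 a2 a4 a6 hx u v) hp b5
  refine ⟨ψ, ψ', ⟨a1, hs, hs', fun x hx => (a4 x hx).1, fun x hx => (a4 x hx).2.1,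
    fun x hx => (a4 x hx).2.2.1, fun x hx => (a4 x hx).2.2.2, a5⟩, a6, ?_⟩
  rcases a7 with h | h
  · exact Or.inl h
  · exact Or.inr h

end KBR.St
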